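import Pool.Agent.H620R2.GaugeQ.Q1
import Pool.Agent.H620R2.GaugeQ.Q8

/-!
The hybrid argument for a family of oracles which are rarely different from a given one.
(Adapted from the proof of `Hyb` by helper653.)
-/

set_option autoImplicit false

namespace Pool.Agent.H822R2.ESY.Q

open Pool.Agent.NPC Finset Pool.Agent.H620R2.Gauge

variable {m : ℕ}

/-- the norm of a vector of amplitudes -/
noncomputable def nrm (ψ : (Fin m → Bool) → ℝ) : ℝ := Real.sqrt (∑ s, ψ s ^ 2)

theorem nrm_eq (ψ : (Fin m → Bool) → ℝ) :
    nrm ψ = ‖(WithLp.toLp 2 ψ : EuclideanSpace ℝ (Fin m → Bool))‖ := by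
  rw [EuclideanSpace.norm_eq]
  unfold nrm
  simp

theorem nrm_nonneg (ψ : (Fin m → Bool) → ℝ) : 0 ≤ nrm ψ := Real.sqrt_nonneg _

theorem nrm_add (ψ φ : (Fin m → Bool) → ℝ) : nrm (fun s => ψ s + φ s) ≤ nrm ψ + nrm φ := by
  rw [nrm_eq, nrm_eq, nrm_eq]
  exact norm_add_le (WithLp.toLp 2 ψ : EuclideanSpace ℝ (Fin m → Bool)) (WithLp.toLp 2 φ)

theorem nrm_gate (A : Oracle) (g : Gate) (ψ : (Fin m → Bool) → ℝ) :
    nrm (gateAct A g ψ) = nrm ψ := by
  unfold nrm
  rw [gateAct_norm]

theorem nrm_circ (A : Oracle) (l : List Gate) (ψ : (Fin m → Bool) → ℝ) :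
    nrm (circAct A l ψ) = nrm ψ := by
  induction l generalizing ψ with
  | nil => rfl
  | cons g l ih =>
      change nrm (circAct A l (gateAct A g ψ)) = _
      rw [ih, nrm_gate]

/-- the question asked by an oracle gate in a basis state -/
def ques (q : List ℕ) (k : Fin m) (s : Fin m → Bool) : List Bool :=
  q.map (rd (Function.update s k false))

/-- the weight of the questions of one gate on which the oracles `A` and `A'` differ -/
noncomputable def gw (A A' : Oracle) : Gate → ((Fin m → Bool) → ℝ) → ℝ
  | Sum.inr (true, q, k), ψ =>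
      if h : k < m then ∑ s, if A (ques q ⟨k, h⟩ s) = A' (ques q ⟨k, h⟩ s) then 0 else ψ s ^ 2
      else 0
  | _, _ => 0

theorem gw_nonneg (A A' : Oracle) (g : Gate) (ψ : (Fin m → Bool) → ℝ) : 0 ≤ gw A A' g ψ := by
  rcases g with i | ⟨b, q, k⟩
  · exact le_rfl
  · cases b with
    | false => exact le_rfl
    | true =>
        simp only [gw]
        split_ifs
        · exact sum_nonneg fun s _ => by split_ifs <;> positivity
        · exact le_rfl

/-- the weight of the questions of a list of gates on which the oracles differ -/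
noncomputable def dev (A A' : Oracle) : List Gate → ((Fin m → Bool) → ℝ) → ℝ
  | [], _ => 0
  | g :: l, ψ => gw A A' g ψ + dev A A' l (gateAct A g ψ)

theorem dev_nonneg (A A' : Oracle) (l : List Gate) (ψ : (Fin m → Bool) → ℝ) :
    0 ≤ dev A A' l ψ := by
  induction l generalizing ψ with
  | nil => exact le_rfl
  | cons g l ih => exact add_nonneg (gw_nonneg A A' g ψ) (ih _)

/-- one gate, two oracles -/
theorem one_step (A A' : Oracle) (g : Gate) (ψ : (Fin m → Bool) → ℝ) :
    ∑ s, (gateAct A g ψ s - gateAct A' g ψ s) ^ 2 ≤ 4 * gw A A' g ψ := by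
  have h0 := gw_nonneg A A' g ψ
  rcases g with i | ⟨b, q, k⟩
  · have : ∀ s, gateAct A (Sum.inl i) ψ s - gateAct A' (Sum.inl i) ψ s = 0 :=
      fun s => sub_self _
    simp only [this]
    simpa using h0
  · cases b with
    | false =>
        have : ∀ s, gateAct A (Sum.inr (false, q, k)) ψ s -
            gateAct A' (Sum.inr (false, q, k)) ψ s = 0 := fun s => sub_self _
        simp only [this]
        simpa using h0
    | true =>
        by_cases h : k < m
        · obtain ⟨K, hK⟩ : ∃ K : Fin m, K = ⟨k, h⟩ := ⟨_, rfl⟩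
          let t : (Fin m → Bool) → (Fin m → Bool) := fun s => Function.update s K (!(s K))
          have ht : Function.Involutive t := by
            intro s
            simp [t]
          have hq : ∀ s, ques q K (t s) = ques q K s := by
            intro s
            simp [t, ques]
          -- the difference at a basis state
          have hpt : ∀ s, (gateAct A (Sum.inr (true, q, k)) ψ s -
              gateAct A' (Sum.inr (true, q, k)) ψ s) ^ 2 ≤
              if A (ques q K s) = A' (ques q K s) then 0
              else 2 * ψ s ^ 2 + 2 * ψ (t s) ^ 2 := by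
            intro s
            have e1 : ∀ A : Oracle, gateAct A (Sum.inr (true, q, k)) ψ s =
                ψ (Function.update s K (s K ^^ A (ques q K s))) := by
              intro A
              simp only [gateAct, flipIf, dif_pos h, hK]
              rfl
            rw [e1, e1]
            split_ifs with h1
            · rw [h1]
              simp
            · have h2 : Function.update s K (s K) = s := Function.update_eq_self K s
              rcases Bool.eq_false_or_eq_true (A (ques q K s)) with h3 | h3 <;>
                rcases Bool.eq_false_or_eq_true (A' (ques q K s)) with h4 | h4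
              · exact absurd (h3.trans h4.symm) h1
              · rw [h3, h4, Bool.xor_true, Bool.xor_false, h2]
                nlinarith [sq_nonneg (ψ s + ψ (t s))]
              · rw [h3, h4, Bool.xor_true, Bool.xor_false, h2]
                nlinarith [sq_nonneg (ψ s + ψ (t s))]
              · exact absurd (h3.trans h4.symm) h1
          have hre : ∑ s, (if A (ques q K s) = A' (ques q K s) then 0
              else ψ (t s) ^ 2) = ∑ s, (if A (ques q K s) = A' (ques q K s) then 0
              else ψ s ^ 2) := by
            rw [← Equiv.sum_comp (ht.toPerm t)]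
            refine sum_congr rfl fun s _ => ?_
            simp only [Function.Involutive.coe_toPerm, hq, ht s]
          have hle : ∑ s, (if A (ques q K s) = A' (ques q K s) then 0
              else ψ s ^ 2) = gw A A' (Sum.inr (true, q, k)) ψ := by
            simp only [gw, dif_pos h, hK]
          calc ∑ s, (gateAct A (Sum.inr (true, q, k)) ψ s -
              gateAct A' (Sum.inr (true, q, k)) ψ s) ^ 2
              ≤ ∑ s, (if A (ques q K s) = A' (ques q K s) then 0
              else 2 * ψ s ^ 2 + 2 * ψ (t s) ^ 2) := sum_le_sum fun s _ => hpt s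
            _ = 2 * ∑ s, (if A (ques q K s) = A' (ques q K s) then 0
              else ψ s ^ 2) + 2 * ∑ s, (if A (ques q K s) = A' (ques q K s) then 0
              else ψ (t s) ^ 2) := by
                rw [mul_sum, mul_sum, ← sum_add_distrib]
                refine sum_congr rfl fun s _ => ?_
                split_ifs <;> simp
            _ = 4 * ∑ s, (if A (ques q K s) = A' (ques q K s) then 0
              else ψ s ^ 2) := by rw [hre]; ring
            _ = 4 * gw A A' (Sum.inr (true, q, k)) ψ := by rw [hle]
        · have : ∀ s, gateAct A (Sum.inr (true, q, k)) ψ s -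
            gateAct A' (Sum.inr (true, q, k)) ψ s = 0 := by
            intro s
            simp only [gateAct, flipIf, dif_neg h, sub_self]
          simp only [this]
          simpa using h0

theorem sqrt_key {n d S : ℝ} (hn : 0 ≤ n) (hd : 0 ≤ d) (hS : 0 ≤ S) :
    Real.sqrt d + Real.sqrt (n * S) ≤ Real.sqrt ((n + 1) * (d + S)) := by
  apply Real.le_sqrt_of_sq_le
  have h1 := Real.sq_sqrt hd
  have h2 := Real.sq_sqrt (mul_nonneg hn hS)
  have h3 : Real.sqrt d * Real.sqrt (n * S) = Real.sqrt (n * d) * Real.sqrt S := by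
    rw [← Real.sqrt_mul hd, ← Real.sqrt_mul (mul_nonneg hn hd)]
    congr 1
    ring
  have h4 := Real.sq_sqrt (mul_nonneg hn hd)
  have h5 := Real.sq_sqrt hS
  nlinarith [sq_nonneg (Real.sqrt (n * d) - Real.sqrt S)]

/-- the hybrid argument -/
theorem hybrid (A A' : Oracle) (l : List Gate) (ψ φ : (Fin m → Bool) → ℝ) :
    nrm (fun s => circAct A l ψ s - circAct A' l φ s) ≤
      nrm (fun s => ψ s - φ s) + 2 * Real.sqrt (l.length * dev A A' l ψ) := by
  induction l generalizing ψ φ with
  | nil => simp [circAct]
  | cons g l ih =>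
      have h1 := ih (gateAct A g ψ) (gateAct A' g φ)
      have h2 : nrm (fun s => gateAct A g ψ s - gateAct A' g φ s) ≤
          nrm (fun s => ψ s - φ s) + 2 * Real.sqrt (gw A A' g ψ) := by
        have h3 : (fun s => gateAct A g ψ s - gateAct A' g φ s) =
            fun s => (gateAct A' g (fun s => ψ s - φ s) s) +
              (gateAct A g ψ s - gateAct A' g ψ s) := by
          rw [gateAct_sub]
          funext s
          ring
        rw [h3]
        refine (nrm_add _ _).trans ?_
        rw [nrm_gate]
        refine add_le_add le_rfl ?_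
        have h4 := one_step A A' g ψ
        unfold nrm
        refine (Real.sqrt_le_sqrt h4).trans (le_of_eq ?_)
        rw [show (4 : ℝ) = 2 ^ 2 by norm_num, Real.sqrt_mul (by norm_num),
          Real.sqrt_sq (by norm_num)]
      have h6 := sqrt_key (n := l.length) (Nat.cast_nonneg _)
        (gw_nonneg A A' g ψ) (dev_nonneg A A' l (gateAct A g ψ))
      rw [dev, List.length_cons]
      push_cast
      change nrm (fun s => circAct A l (gateAct A g ψ) s -
        circAct A' l (gateAct A' g φ) s) ≤ _
      linarith

theorem acc_sub (ψ φ : (Fin m → Bool) → ℝ) :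
    |(∑ s : Fin m → Bool, if rd s 0 then ψ s ^ 2 else 0) -
      ∑ s : Fin m → Bool, if rd s 0 then φ s ^ 2 else 0| ≤
      nrm (fun s => ψ s - φ s) * nrm (fun s => ψ s + φ s) := by
  rw [← sum_sub_distrib]
  refine (abs_sum_le_sum_abs _ _).trans ?_
  have h1 : ∀ s : Fin m → Bool, |(if rd s 0 then ψ s ^ 2 else 0) - (if rd s 0 then φ s ^ 2 else 0)| ≤
      |ψ s - φ s| * |ψ s + φ s| := by
    intro s
    split_ifs
    · rw [← abs_mul]
      refine le_of_eq ?_
      congr 1
      ring
    · simp only [sub_self, abs_zero]
      positivity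
  refine (sum_le_sum fun s _ => h1 s).trans ?_
  have h2 := Real.sum_mul_le_sqrt_mul_sqrt (univ : Finset (Fin m → Bool))
    (fun s => |ψ s - φ s|) (fun s => |ψ s + φ s|)
  simp only [sq_abs] at h2
  exact h2

theorem sum_initSt (m : ℕ) : ∑ s, initSt m s ^ 2 = 1 := by
  unfold initSt
  rw [sum_eq_single (fun _ => false)]
  · simp
  · intro s _ hs
    rw [if_neg hs]
    simp
  · intro h
    exact absurd (mem_univ _) h

theorem acc_diff (A A' : Oracle) (c : List Unit × List Gate) :
    |accProb A c - accProb A' c| ≤
      4 * Real.sqrt (c.2.length * dev A A' c.2 (initSt c.1.length)) := by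
  have hn : nrm (initSt c.1.length) = 1 := by
    unfold nrm
    rw [sum_initSt, Real.sqrt_one]
  have h1 := hybrid A A' c.2 (initSt c.1.length) (initSt c.1.length)
  have h2 : nrm (fun s => initSt c.1.length s - initSt c.1.length s) = 0 := by
    unfold nrm
    simp
  rw [h2, zero_add] at h1
  have h3 : nrm (fun s => circAct A c.2 (initSt c.1.length) s +
      circAct A' c.2 (initSt c.1.length) s) ≤ 2 := by
    refine (nrm_add _ _).trans ?_
    rw [nrm_circ, nrm_circ, hn]
    norm_num
  have h4 := acc_sub (circAct A c.2 (initSt c.1.length)) (circAct A' c.2 (initSt c.1.length))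
  refine h4.trans ?_
  have h6 : (0 : ℝ) ≤ Real.sqrt (c.2.length * dev A A' c.2 (initSt c.1.length)) :=
    Real.sqrt_nonneg _
  have h7 := mul_le_mul h1 h3 (nrm_nonneg _) (by positivity)
  refine h7.trans (le_of_eq ?_)
  ring

open scoped Classical in
/-- the average over a family of oracles -/
theorem sum_gw {ι : Type*} (I : Finset ι) (A : Oracle) (A' : ι → Oracle) (c : ℕ)
    (hc : ∀ u, (I.filter (fun κ => A' κ u ≠ A u)).card ≤ c) (g : Gate)
    (ψ : (Fin m → Bool) → ℝ) : ∑ κ ∈ I, gw A (A' κ) g ψ ≤ c * ∑ s, ψ s ^ 2 := by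
  have h0 : (0 : ℝ) ≤ c * ∑ s, ψ s ^ 2 := by positivity
  rcases g with i | ⟨b, q, k⟩
  · simpa [gw] using h0
  · cases b with
    | false => simpa [gw] using h0
    | true =>
      by_cases h : k < m
      · simp only [gw, dif_pos h]
        rw [sum_comm, mul_sum]
        refine sum_le_sum fun s _ => ?_
        have h1 : ∑ κ ∈ I, (if A (ques q ⟨k, h⟩ s) = A' κ (ques q ⟨k, h⟩ s) then (0 : ℝ)
            else ψ s ^ 2) =
            ((I.filter (fun κ => A' κ (ques q ⟨k, h⟩ s) ≠ A (ques q ⟨k, h⟩ s))).card : ℝ) *
              ψ s ^ 2 := by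
          rw [card_filter, Nat.cast_sum, sum_mul]
          refine sum_congr rfl fun κ _ => ?_
          by_cases h2 : A (ques q ⟨k, h⟩ s) = A' κ (ques q ⟨k, h⟩ s)
          · rw [if_pos h2, if_neg (fun h3 => h3 h2.symm)]
            simp
          · rw [if_neg h2, if_pos (fun h3 => h2 h3.symm)]
            simp
        rw [h1]
        exact mul_le_mul_of_nonneg_right (Nat.cast_le.2 (hc _)) (by positivity)
      · simp only [gw, dif_neg h, sum_const_zero]
        exact h0

open scoped Classical in
theorem sum_dev {ι : Type*} (I : Finset ι) (A : Oracle) (A' : ι → Oracle) (c : ℕ)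
    (hc : ∀ u, (I.filter (fun κ => A' κ u ≠ A u)).card ≤ c) (l : List Gate)
    (ψ : (Fin m → Bool) → ℝ) : ∑ κ ∈ I, dev A (A' κ) l ψ ≤ l.length * c * ∑ s, ψ s ^ 2 := by
  induction l generalizing ψ with
  | nil => simp [dev]
  | cons g l ih =>
    simp only [dev, sum_add_distrib, List.length_cons]
    have h1 := sum_gw I A A' c hc g ψ
    have h2 := ih (gateAct A g ψ)
    rw [gateAct_norm] at h2
    push_cast
    linarith

open scoped Classical in
/-- an oracle of the family for which the acceptance probability is nearly the same -/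
theorem exists_close {ι : Type*} (I : Finset ι) (A : Oracle) (A' : ι → Oracle) (c : ℕ)
    (hc : ∀ u, (I.filter (fun κ => A' κ u ≠ A u)).card ≤ c) (C : List Unit × List Gate) {T : ℕ}
    (hT : C.2.length ≤ T) (hI : 256 * T ^ 2 * c < I.card) :
    ∃ κ ∈ I, |accProb A C - accProb (A' κ) C| ≤ 1 / 4 := by
  have h1 := sum_dev I A A' c hc C.2 (initSt C.1.length)
  rw [sum_initSt, mul_one] at h1
  have hT' : (C.2.length : ℝ) ≤ T := Nat.cast_le.2 hT
  have hI' : (256 : ℝ) * T ^ 2 * c < I.card := by exact_mod_cast hI
  by_contra hcon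
  push Not at hcon
  -- every deviation is large
  have h2 : ∀ κ ∈ I, 1 ≤ 256 * (T : ℝ) * dev A (A' κ) C.2 (initSt C.1.length) := by
    intro κ hκ
    have h3 := (hcon κ hκ).trans_le (acc_diff A (A' κ) C)
    have h4 := dev_nonneg A (A' κ) C.2 (initSt C.1.length)
    have h5 : (1 / 16 : ℝ) < Real.sqrt (C.2.length * dev A (A' κ) C.2 (initSt C.1.length)) := by
      linarith
    have h6 : (1 / 16 : ℝ) ^ 2 < C.2.length * dev A (A' κ) C.2 (initSt C.1.length) := by
      rw [← Real.sq_sqrt (show (0 : ℝ) ≤ C.2.length * dev A (A' κ) C.2 (initSt C.1.length) by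
        positivity)]
      exact pow_lt_pow_left₀ h5 (by norm_num) (by norm_num)
    have h7 : C.2.length * dev A (A' κ) C.2 (initSt C.1.length) ≤
        T * dev A (A' κ) C.2 (initSt C.1.length) := mul_le_mul_of_nonneg_right hT' h4
    linarith
  have h3 : (I.card : ℝ) ≤ 256 * T * ∑ κ ∈ I, dev A (A' κ) C.2 (initSt C.1.length) := by
    rw [mul_sum]
    calc (I.card : ℝ) = ∑ _κ ∈ I, (1 : ℝ) := by simp
      _ ≤ _ := sum_le_sum h2
  have h4 : (256 : ℝ) * T * ∑ κ ∈ I, dev A (A' κ) C.2 (initSt C.1.length) ≤
      256 * T * (C.2.length * c) := mul_le_mul_of_nonneg_left h1 (by positivity)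
  have h5 : (256 : ℝ) * T * (C.2.length * c) ≤ 256 * T * (T * c) :=
    mul_le_mul_of_nonneg_left (mul_le_mul_of_nonneg_right hT' (by positivity)) (by positivity)
  nlinarith

end Pool.Agent.H822R2.ESY.Q
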