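import Mathlib

/-!
Combinatorics: graphs without large independent sets have many edges; two families of small sets
covering a product.
-/

set_option autoImplicit false

namespace Pool.Agent.H822R2.ESY

open Finset

variable {α : Type*} [DecidableEq α]

/-- a graph without independent sets of more than `s` vertices has many edges -/
theorem turan (P : Finset α → Prop) [DecidablePred P] (s : ℕ) : ∀ (g : ℕ) (G : Finset α),
    G.card = g → (∀ I ⊆ G, (∀ h ∈ I.powersetCard 2, ¬ P h) → I.card ≤ s) →
      G.card ^ 2 ≤ s * (2 * ((G.powersetCard 2).filter P).card + G.card) := by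
  intro g
  induction g using Nat.strong_induction_on with
  | _ g ih =>
    intro G hG hs
    rcases Nat.eq_zero_or_pos g with rfl | hg
    · rw [hG]
      simp
    -- a largest independent set
    have hne : (G.powerset.filter (fun I => ∀ h ∈ I.powersetCard 2, ¬ P h)).Nonempty := by
      refine ⟨∅, ?_⟩
      rw [mem_filter]
      refine ⟨by simp, ?_⟩
      intro h hh
      rw [mem_powersetCard, subset_empty] at hh
      rw [hh.1] at hh
      simp at hh
    obtain ⟨I, hI, hmax⟩ := exists_max_image _ Finset.card hne
    rw [mem_filter, mem_powerset] at hI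
    have hIs := hs I hI.1 hI.2
    have hI1 : 1 ≤ I.card := by
      obtain ⟨v, hv⟩ : G.Nonempty := by
        rw [← card_pos, hG]
        exact hg
      have h1 := hmax {v} (by
        rw [mem_filter, mem_powerset, singleton_subset_iff]
        refine ⟨hv, ?_⟩
        intro h hh
        rw [mem_powersetCard] at hh
        have h2 := card_le_card hh.1
        rw [hh.2, card_singleton] at h2
        omega)
      rwa [card_singleton] at h1
    have hadd : (G \ I).card + I.card = G.card := card_sdiff_add_card_eq_card hI.1
    -- every other vertex has a neighbour in it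
    have hnb : ∀ v ∈ G \ I, ∃ h : Finset α, h ⊆ insert v I ∧ h.card = 2 ∧ v ∈ h ∧ P h := by
      intro v hv
      rw [mem_sdiff] at hv
      by_contra hcon
      push Not at hcon
      have h1 := hmax (insert v I) (by
        rw [mem_filter, mem_powerset]
        refine ⟨insert_subset hv.1 hI.1, ?_⟩
        intro h hh
        rw [mem_powersetCard] at hh
        by_cases hvh : v ∈ h
        · exact hcon h hh.1 hh.2 hvh
        · refine hI.2 h ?_
          rw [mem_powersetCard]
          refine ⟨?_, hh.2⟩
          intro u hu
          rcases mem_insert.1 (hh.1 hu) with rfl | h2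
          · exact absurd hu hvh
          · exact h2)
      rw [card_insert_of_notMem hv.2] at h1
      omega
    choose! f hf using hnb
    have hinj : Set.InjOn f (G \ I : Finset α) := by
      intro v hv v' hv' he
      have h1 := (hf v hv).2.2.1
      rw [he] at h1
      have h2 := (hf v' hv').1 h1
      rcases mem_insert.1 h2 with h3 | h3
      · exact h3
      · exact absurd h3 (mem_sdiff.1 hv).2
    have hdis : Disjoint ((G \ I).image f) (((G \ I).powersetCard 2).filter P) := by
      rw [disjoint_left]
      intro h h1 h2
      obtain ⟨v, hv, rfl⟩ := mem_image.1 h1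
      rw [mem_filter, mem_powersetCard] at h2
      have h3 : f v ⊆ {v} := by
        intro u hu
        rw [mem_singleton]
        rcases mem_insert.1 ((hf v hv).1 hu) with h4 | h4
        · exact h4
        · exact absurd h4 (mem_sdiff.1 (h2.1.1 hu)).2
      have h4 := card_le_card h3
      rw [card_singleton, (hf v hv).2.1] at h4
      omega
    have hsub : (G \ I).image f ∪ ((G \ I).powersetCard 2).filter P ⊆
        (G.powersetCard 2).filter P := by
      intro h hh
      rw [mem_filter, mem_powersetCard]
      rcases mem_union.1 hh with h1 | h1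
      · obtain ⟨v, hv, rfl⟩ := mem_image.1 h1
        refine ⟨⟨?_, (hf v hv).2.1⟩, (hf v hv).2.2.2⟩
        exact (hf v hv).1.trans (insert_subset (mem_sdiff.1 hv).1 hI.1)
      · rw [mem_filter, mem_powersetCard] at h1
        exact ⟨⟨h1.1.1.trans sdiff_subset, h1.1.2⟩, h1.2⟩
    have hcard := card_le_card hsub
    rw [card_union_of_disjoint hdis, card_image_of_injOn hinj] at hcard
    have hrec := ih (G \ I).card (by omega) (G \ I) rfl (fun J hJ hJ' =>
      hs J (hJ.trans sdiff_subset) hJ')
    set e := ((G.powersetCard 2).filter P).card with he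
    set e' := (((G \ I).powersetCard 2).filter P).card with he'
    set g' := (G \ I).card with hg'
    rw [← hadd]
    set i := I.card with hi
    -- (g' + i)^2 ≤ s (2 e + g' + i)
    have h1 : s * (2 * (g' + e') + (g' + i)) ≤ s * (2 * e + (g' + i)) :=
      Nat.mul_le_mul_left _ (by omega)
    refine le_trans ?_ h1
    nlinarith [Nat.mul_le_mul_right i hIs, Nat.mul_le_mul_right g' hIs]

/-- two families of small sets covering a product -/
theorem cover (IB IC : Finset α) (T T' : α → Finset α) (P : ℕ)
    (hT : ∀ κ ∈ IB, (T κ).card ≤ P) (hT' : ∀ κ ∈ IC, (T' κ).card ≤ P)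
    (h : ∀ κ ∈ IB, ∀ κ' ∈ IC, κ' ∈ T κ ∨ κ ∈ T' κ') : IB.card ≤ 2 * P ∨ IC.card ≤ 2 * P := by
  by_contra hcon
  push Not at hcon
  obtain ⟨h1, h2⟩ := hcon
  have h3 : IB.card * IC.card ≤ IB.card * P + IC.card * P := by
    calc IB.card * IC.card = ∑ κ ∈ IB, ∑ _κ' ∈ IC, 1 := by simp
      _ ≤ ∑ κ ∈ IB, ∑ κ' ∈ IC, ((if κ' ∈ T κ then 1 else 0) + (if κ ∈ T' κ' then 1 else 0)) := by
        refine sum_le_sum fun κ hκ => sum_le_sum fun κ' hκ' => ?_
        rcases h κ hκ κ' hκ' with h4 | h4
        · simp [h4]
        · simp [h4]
      _ = ∑ κ ∈ IB, ∑ κ' ∈ IC, (if κ' ∈ T κ then 1 else 0) +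
          ∑ κ' ∈ IC, ∑ κ ∈ IB, (if κ ∈ T' κ' then 1 else 0) := by
        rw [sum_comm (s := IC), ← sum_add_distrib]
        exact sum_congr rfl fun κ _ => sum_add_distrib
      _ ≤ ∑ _κ ∈ IB, P + ∑ _κ' ∈ IC, P := by
        refine add_le_add (sum_le_sum fun κ hκ => ?_) (sum_le_sum fun κ' hκ' => ?_)
        · rw [← card_filter]
          refine (card_le_card ?_).trans (hT κ hκ)
          intro u hu
          exact (mem_filter.1 hu).2
        · rw [← card_filter]
          refine (card_le_card ?_).trans (hT' κ' hκ')
          intro u hu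
          exact (mem_filter.1 hu).2
      _ = IB.card * P + IC.card * P := by simp
  nlinarith

end Pool.Agent.H822R2.ESY
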