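import Pool.Agent.H628R3.RO.M2
import Pool.Agent.H628R3.RO.M4

/-!
The flow inequality: if a typical oracle without a hit in the block `x` is still typical after
planting most single hits, and then often bad after planting two hits, for every one of many blocks
`x`, then, since a bad oracle can be repaired by removing two hits of the block `x` only for few
`x`, there are few blocks.
-/

set_option autoImplicit false

namespace Pool.Agent.H822R2.ESY

open MeasureTheory Pool.Agent.H628R3.RO Pool.Agent.H628R3.RO.M2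

theorem prob_eq_integral {S : Set Oracle} (hS : MeasurableSet S) (c : ℝ) :
    c * prob S = ∫ B, S.indicator (fun _ => c) B ∂randomOracle := by
  rw [integral_indicator_const _ hS]
  simp [prob, mul_comm]

open scoped Classical in
theorem sum_prob_eq {ι : Type*} (I : Finset ι) (F : ι → Set Oracle)
    (hF : ∀ i ∈ I, MeasurableSet (F i)) :
    ∑ i ∈ I, prob (F i) = ∫ B, ((I.filter (fun i => B ∈ F i)).card : ℝ) ∂randomOracle := by
  have hint : ∀ i ∈ I, Integrable (fun B => (F i).indicator (fun _ => (1 : ℝ)) B)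
      randomOracle := fun i hi => (integrable_const (1 : ℝ)).indicator (hF i hi)
  have h1 : ∀ i ∈ I, prob (F i) = ∫ B, (F i).indicator (fun _ => (1 : ℝ)) B ∂randomOracle := by
    intro i hi
    rw [← prob_eq_integral (hF i hi), one_mul]
  rw [Finset.sum_congr rfl h1, ← integral_finsetSum _ hint]
  congr 1
  funext B
  rw [Finset.card_filter]
  push_cast
  refine Finset.sum_congr rfl fun i _ => ?_
  by_cases h : B ∈ F i
  · simp [h]
  · simp [h]

open scoped Classical in
theorem integrable_count {ι : Type*} (I : Finset ι) (F : ι → Set Oracle)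
    (hF : ∀ i ∈ I, MeasurableSet (F i)) :
    Integrable (fun B => ((I.filter (fun i => B ∈ F i)).card : ℝ)) randomOracle := by
  have h : (fun B => ((I.filter (fun i => B ∈ F i)).card : ℝ)) =
      fun B => ∑ i ∈ I, (F i).indicator (fun _ => (1 : ℝ)) B := by
    funext B
    rw [Finset.card_filter]
    push_cast
    refine Finset.sum_congr rfl fun i _ => ?_
    by_cases h : B ∈ F i
    · simp [h]
    · simp [h]
  rw [h]
  exact integrable_finsetSum _ fun i hi => (integrable_const (1 : ℝ)).indicator (hF i hi)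

open scoped Classical in
theorem le_sum_prob {ι : Type*} (I : Finset ι) (F : ι → Set Oracle)
    (hF : ∀ i ∈ I, MeasurableSet (F i)) {Q : Set Oracle} (hQ : MeasurableSet Q) (k : ℝ)
    (h : ∀ B ∈ Q, k ≤ ((I.filter (fun i => B ∈ F i)).card : ℝ)) :
    k * prob Q ≤ ∑ i ∈ I, prob (F i) := by
  rw [sum_prob_eq I F hF, prob_eq_integral hQ]
  refine integral_mono ((integrable_const k).indicator hQ) (integrable_count I F hF) fun B => ?_
  by_cases hB : B ∈ Q
  · simp only [Set.indicator_of_mem hB]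
    exact h B hB
  · simp only [Set.indicator_of_notMem hB]
    positivity

open scoped Classical in
theorem sum_prob_le' {ι : Type*} (I : Finset ι) (F : ι → Set Oracle)
    (hF : ∀ i ∈ I, MeasurableSet (F i)) {Q : Set Oracle} (hQ : MeasurableSet Q)
    (hFQ : ∀ i ∈ I, F i ⊆ Q) (k : ℝ)
    (h : ∀ B ∈ Q, ((I.filter (fun i => B ∈ F i)).card : ℝ) ≤ k) :
    ∑ i ∈ I, prob (F i) ≤ k * prob Q := by
  rw [sum_prob_eq I F hF, prob_eq_integral hQ]
  refine integral_mono (integrable_count I F hF) ((integrable_const k).indicator hQ) fun B => ?_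
  by_cases hB : B ∈ Q
  · simp only [Set.indicator_of_mem hB]
    exact h B hB
  · simp only [Set.indicator_of_notMem hB]
    have : I.filter (fun i => B ∈ F i) = ∅ := by
      rw [Finset.filter_eq_empty_iff]
      intro i hi hBi
      exact hB (hFQ i hi hBi)
    rw [this]
    simp

open scoped Classical in
/-- the sets of hits are disjoint events -/
theorem sum_hitSet_le {S : Set Oracle} (hS : MeasurableSet S) (m : ℕ) (W : Finset Cand)
    (I : Finset (Finset Cand)) (hI : ∀ h ∈ I, h ⊆ W) (T : Finset Cand → Set Oracle)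
    (hT : ∀ h ∈ I, MeasurableSet (T h)) (hTS : ∀ h ∈ I, T h ⊆ S) :
    ∑ h ∈ I, prob (T h ∩ HitSet m W h) ≤ prob S := by
  have h1 := sum_prob_le' I (fun h => T h ∩ HitSet m W h)
    (fun h hh => (hT h hh).inter (measurableSet_hitSet m W h)) hS
    (fun h hh => Set.inter_subset_left.trans (hTS h hh)) 1 (fun B _ => by
      have h2 : (I.filter (fun h => B ∈ T h ∩ HitSet m W h)).card ≤ 1 := by
        rw [Finset.card_le_one]
        intro a ha b hb
        rw [Finset.mem_filter] at ha hb
        ext κ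
        constructor
        · intro hκ
          exact (hb.2.2 κ (hI a ha.1 hκ)).1 ((ha.2.2 κ (hI a ha.1 hκ)).2 hκ)
        · intro hκ
          exact (ha.2.2 κ (hI b hb.1 hκ)).1 ((hb.2.2 κ (hI b hb.1 hκ)).2 hκ)
      have h3 : (((I.filter (fun h => B ∈ T h ∩ HitSet m W h)).card : ℕ) : ℝ) ≤ ((1 : ℕ) : ℝ) :=
        Nat.cast_le.2 h2
      rw [Nat.cast_one] at h3
      convert h3)
  rwa [one_mul] at h1

/-- moving mass by planting -/
theorem prob_plant_noHit_le {S : Set Oracle} (hS : MeasurableSet S) (m : ℕ) {W h : Finset Cand}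
    (hh : h ⊆ W) :
    prob (plant (allSpots m h) ⁻¹' S ∩ NoHit m W) ≤ (2 ^ m) ^ h.card * prob (S ∩ HitSet m W h) := by
  have h1 := prob_hitSet hS m hh
  have h2 : (1 - (1 / 2 : ℝ) ^ m) ^ h.card ≤ 1 := by
    apply pow_le_one₀
    · have : (1 / 2 : ℝ) ^ m ≤ 1 := pow_le_one₀ (by norm_num) (by norm_num)
      linarith
    · have : 0 < (1 / 2 : ℝ) ^ m := by positivity
      linarith
  have h3 : ((1 / 2 : ℝ) ^ m) ^ h.card * prob (plant (allSpots m h) ⁻¹' S ∩ NoHit m W) ≤
      prob (S ∩ HitSet m W h) := by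
    rw [← h1]
    exact mul_le_of_le_one_right (prob_nonneg _) h2
  have h4 : ((2 : ℝ) ^ m) ^ h.card * ((1 / 2 : ℝ) ^ m) ^ h.card = 1 := by
    rw [← mul_pow, ← mul_pow]
    norm_num
  calc prob (plant (allSpots m h) ⁻¹' S ∩ NoHit m W)
      = (2 ^ m) ^ h.card * (((1 / 2 : ℝ) ^ m) ^ h.card *
          prob (plant (allSpots m h) ⁻¹' S ∩ NoHit m W)) := by
        rw [← mul_assoc, h4, one_mul]
    _ ≤ _ := mul_le_mul_of_nonneg_left h3 (by positivity)

/-- the oracles of `S` which come from an oracle outside `E` by planting `h` -/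
def From (S E : Set Oracle) (m : ℕ) (h : Finset Cand) : Set Oracle :=
  {A | A ∈ S ∧ ∃ B, B ∉ E ∧ plant (allSpots m h) B = A}

theorem loc_from {K : Set (List Bool)} {S E : Set Oracle} (hS : Loc K S) (hE : Loc K E) (m : ℕ)
    {h : Finset Cand} (hh : ∀ κ ∈ h, ∀ l < m, pos κ.1 l κ.2 ∈ K) : Loc K (From S E m h) := by
  classical
  have key : ∀ A A' : Oracle, (∀ x ∈ K, A x = A' x) → A ∈ From S E m h → A' ∈ From S E m h := by
    rintro A A' hA ⟨h1, B, hB, rfl⟩
    refine ⟨(hS _ _ hA).1 h1, fun x => if x ∈ K then B x else A' x, ?_, ?_⟩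
    · intro h2
      apply hB
      refine (hE _ _ fun x hx => ?_).1 h2
      simp [hx]
    · funext x
      by_cases hx : x ∈ K
      · rw [← hA x hx]
        simp [plant, hx]
      · have h3 : x ∉ allSpots m h := by
          intro h4
          obtain ⟨κ, hκ, h5⟩ := mem_allSpots.1 h4
          obtain ⟨i, hi, rfl⟩ := mem_spots.1 h5
          exact hx (hh κ hκ i hi)
        simp [plant, h3, hx]
  exact fun A A' hA => ⟨key A A' hA, key A' A fun x hx => (hA x hx).symm⟩

open scoped Classical in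
theorem flow {K : Set (List Bool)} (hK : K.Finite) {Z E η : Set Oracle} (hZ : Loc K Z)
    (hE : Loc K E) (hη : Loc K η) (hZη : Z ⊆ η) (hZE : ∀ B ∈ Z, B ∉ E)
    {ι : Type*} (X : Finset ι) (W : ι → Finset Cand) {m : ℕ} (hm : 1 ≤ m)
    (hcard : ∀ x ∈ X, (W x).card = 2 ^ m)
    (hWK : ∀ x ∈ X, ∀ κ ∈ W x, ∀ l < m, pos κ.1 l κ.2 ∈ K)
    (hη' : ∀ x ∈ X, ∀ h ⊆ W x, ∀ B, plant (allSpots m h) B ∈ η ↔ B ∈ η)
    (hδ : prob (η \ Z) ≤ 1 / 24 * prob η) (ρ : ℝ) (hρ : 0 ≤ ρ)
    (hcore : ∀ x ∈ X, ∀ B ∈ Z, B ∈ NoHit m (W x) →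
      2 ^ m ≤ 2 * ((W x).filter (fun κ => plant (allSpots m {κ}) B ∈ Z)).card →
      ρ * (2 ^ m) ^ 2 ≤ ((((W x).powersetCard 2).filter
        (fun h => plant (allSpots m h) B ∈ E)).card : ℝ))
    (k : ℕ)
    (hin : ∀ A ∈ E, (X.filter (fun x => ∃ h ∈ (W x).powersetCard 2, ∃ B, B ∉ E ∧
      plant (allSpots m h) B = A)).card ≤ k)
    (hpos : 0 < prob η) : X.card * (1 / 8 * ρ) ≤ k := by
  have hZm := measurableSet_of_loc hK hZ
  have hEm := measurableSet_of_loc hK hE
  have hηm := measurableSet_of_loc hK hη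
  have hηp := prob_nonneg η
  have hN0 : (0 : ℝ) < 2 ^ m := by positivity
  -- one block
  have hblock : ∀ x ∈ X, 1 / 8 * ρ * prob η ≤
      prob {A | A ∈ E ∩ η ∧ ∃ h ∈ (W x).powersetCard 2, ∃ B, B ∉ E ∧ plant (allSpots m h) B = A} := by
    intro x hx
    set N := NoHit m (W x) with hN
    have hNl : Loc K N := loc_noHit (hWK x hx)
    have hNm := measurableSet_of_loc hK hNl
    -- A: no hit
    have hA : 1 / 4 * prob η ≤ prob (η ∩ N) := by
      have h1 := prob_noHit_aux hηm m (W x) (fun κ hκ A => by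
        rw [← allSpots_singleton]
        exact hη' x hx {κ} (Finset.singleton_subset_iff.2 hκ) A)
      have h2 := sat_ge hm 1
      rw [hN, h1, hcard x hx]
      rw [pow_one, one_mul] at h2
      rw [mul_comm]
      exact mul_le_mul_of_nonneg_left h2 hηp
    -- B: Markov
    set F : Cand → Set Oracle := fun κ => plant (allSpots m {κ}) ⁻¹' (η \ Z) ∩ N with hF
    set G : Set Oracle := {B | B ∈ η ∩ N ∧
      2 * ((W x).filter (fun κ => plant (allSpots m {κ}) B ∈ Z)).card < 2 ^ m} with hG
    have hGl : Loc K G := by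
      intro A A' hA
      have h1 : (W x).filter (fun κ => plant (allSpots m {κ}) A ∈ Z) =
          (W x).filter (fun κ => plant (allSpots m {κ}) A' ∈ Z) := by
        apply Finset.filter_congr
        intro κ _
        exact loc_plant hZ _ A A' hA
      simp only [hG, Set.mem_ofPred_eq, h1]
      exact and_congr_left fun _ => (M2.Loc.inter hη hNl) A A' hA
    have hGm := measurableSet_of_loc hK hGl
    have hFm : ∀ κ ∈ W x, MeasurableSet (F κ) := fun κ _ =>
      ((measurable_plant _) (hηm.diff hZm)).inter hNm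
    have hB : prob G ≤ 2 * prob (η \ Z) := by
      have h1 := le_sum_prob (W x) F hFm hGm (2 ^ m / 2) (fun B hB => by
        have h2 : (W x).card ≤ ((W x).filter (fun κ => plant (allSpots m {κ}) B ∈ Z)).card +
            ((W x).filter (fun κ => B ∈ F κ)).card := by
          rw [← Finset.card_filter_add_card_filter_not (s := W x)
            (fun κ => plant (allSpots m {κ}) B ∈ Z)]
          refine Nat.add_le_add_left (Finset.card_le_card ?_) _
          intro κ hκ
          rw [Finset.mem_filter] at hκ ⊢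
          refine ⟨hκ.1, ⟨(hη' x hx {κ} (Finset.singleton_subset_iff.2 hκ.1) B).2 hB.1.1, hκ.2⟩,
            hB.1.2⟩
        rw [hcard x hx] at h2
        have h3 := hB.2
        have h4 : 2 ^ m ≤ 2 * ((W x).filter (fun κ => B ∈ F κ)).card := by omega
        have h5 : ((2 ^ m : ℕ) : ℝ) ≤ ((2 * ((W x).filter (fun κ => B ∈ F κ)).card : ℕ) : ℝ) :=
          Nat.cast_le.2 h4
        push_cast at h5
        have h6 : (2 : ℝ) ^ m / 2 ≤ (((W x).filter (fun κ => B ∈ F κ)).card : ℝ) := by linarith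
        convert h6)
      have h2 : ∑ κ ∈ W x, prob (F κ) ≤ 2 ^ m * prob (η \ Z) := by
        have h3 : ∀ κ ∈ W x, prob (F κ) ≤ 2 ^ m * prob ((η \ Z) ∩ HitSet m (W x) {κ}) := by
          intro κ hκ
          have h4 := prob_plant_noHit_le (hηm.diff hZm) m (Finset.singleton_subset_iff.2 hκ)
          rw [Finset.card_singleton, pow_one] at h4
          exact h4
        refine (Finset.sum_le_sum h3).trans ?_
        rw [← Finset.mul_sum]
        apply mul_le_mul_of_nonneg_left _ hN0.le
        have h4 := sum_hitSet_le (hηm.diff hZm) m (W x) ((W x).image (fun κ => {κ}))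
          (by
            intro h hh
            obtain ⟨κ, hκ, rfl⟩ := Finset.mem_image.1 hh
            exact Finset.singleton_subset_iff.2 hκ)
          (fun _ => η \ Z) (fun _ _ => hηm.diff hZm) (fun _ _ => Set.Subset.refl _)
        rwa [Finset.sum_image (by
          intro a _ b _ hab
          exact Finset.singleton_injective hab)] at h4
      have h3 : 2 ^ m / 2 * prob G ≤ 2 ^ m * prob (η \ Z) := h1.trans h2
      have h4 : 2 ^ m * prob G ≤ 2 ^ m * (2 * prob (η \ Z)) := by linarith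
      exact le_of_mul_le_mul_left h4 hN0
    -- C: good oracles
    set U : Set Oracle := {B | B ∈ Z ∩ N ∧
      2 ^ m ≤ 2 * ((W x).filter (fun κ => plant (allSpots m {κ}) B ∈ Z)).card} with hU
    have hUl : Loc K U := by
      intro A A' hA
      have h1 : (W x).filter (fun κ => plant (allSpots m {κ}) A ∈ Z) =
          (W x).filter (fun κ => plant (allSpots m {κ}) A' ∈ Z) := by
        apply Finset.filter_congr
        intro κ _
        exact loc_plant hZ _ A A' hA
      simp only [hU, Set.mem_ofPred_eq, h1]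
      exact and_congr_left fun _ => (M2.Loc.inter hZ hNl) A A' hA
    have hUm := measurableSet_of_loc hK hUl
    have hC : 1 / 8 * prob η ≤ prob U := by
      have h1 : η ∩ N ⊆ (U ∪ G) ∪ (η \ Z) := by
        rintro B ⟨hB1, hB2⟩
        by_cases h2 : B ∈ Z
        · left
          by_cases h3 : 2 ^ m ≤ 2 * ((W x).filter (fun κ => plant (allSpots m {κ}) B ∈ Z)).card
          · exact Or.inl ⟨⟨h2, hB2⟩, h3⟩
          · exact Or.inr ⟨⟨hB1, hB2⟩, not_le.1 h3⟩
        · exact Or.inr ⟨hB1, h2⟩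
      have h2 := (prob_mono h1).trans (prob_union_le _ _)
      have h3 := prob_union_le U G
      linarith
    -- D: two hits
    set H : Finset Cand → Set Oracle := fun h => {B | B ∈ Z ∩ N ∧ plant (allSpots m h) B ∈ E}
      with hH
    have hHm : ∀ h ∈ (W x).powersetCard 2, MeasurableSet (H h) := fun h _ =>
      (hZm.inter hNm).inter ((measurable_plant _) hEm)
    have hD1 : ρ * (2 ^ m) ^ 2 * prob U ≤ ∑ h ∈ (W x).powersetCard 2, prob (H h) := by
      apply le_sum_prob _ H hHm hUm
      intro B hB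
      refine (hcore x hx B hB.1.1 hB.1.2 hB.2).trans ?_
      refine Nat.cast_le.2 (Finset.card_le_card ?_)
      intro h hh
      simp only [Finset.mem_filter] at hh ⊢
      exact ⟨hh.1, hB.1, hh.2⟩
    have hWh : ∀ h ∈ (W x).powersetCard 2, ∀ κ ∈ h, ∀ l < m, pos κ.1 l κ.2 ∈ K := by
      intro h hh κ hκ l hl
      exact hWK x hx κ ((Finset.mem_powersetCard.1 hh).1 hκ) l hl
    have hSl : ∀ h ∈ (W x).powersetCard 2, Loc K (From (E ∩ η) E m h) := fun h hh =>
      loc_from (M2.Loc.inter hE hη) hE m (hWh h hh)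
    have hD2 : ∀ h ∈ (W x).powersetCard 2, prob (H h) ≤
        (2 ^ m) ^ 2 * prob (From (E ∩ η) E m h ∩ HitSet m (W x) h) := by
      intro h hh
      have hh' := Finset.mem_powersetCard.1 hh
      have h1 := prob_plant_noHit_le (measurableSet_of_loc hK (hSl h hh)) m hh'.1
      rw [hh'.2] at h1
      refine le_trans (prob_mono ?_) h1
      rintro B ⟨⟨hB1, hB2⟩, hB3⟩
      exact ⟨⟨⟨hB3, (hη' x hx h hh'.1 B).2 (hZη hB1)⟩, B, hZE B hB1, rfl⟩, hB2⟩
    set Fx : Set Oracle := {A | A ∈ E ∩ η ∧ ∃ h ∈ (W x).powersetCard 2, ∃ B, B ∉ E ∧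
      plant (allSpots m h) B = A} with hFx
    have hFxl : Loc K Fx := by
      have key : ∀ A A' : Oracle, (∀ x ∈ K, A x = A' x) → A ∈ Fx → A' ∈ Fx := by
        rintro A A' hA ⟨h1, h, hh, B, hB⟩
        have h2 : A ∈ From (E ∩ η) E m h := ⟨h1, B, hB⟩
        obtain ⟨h3, B', hB'⟩ := ((hSl h hh) A A' hA).1 h2
        exact ⟨h3, h, hh, B', hB'⟩
      exact fun A A' hA => ⟨key A A' hA, key A' A fun x hx => (hA x hx).symm⟩
    have hD3 : ∑ h ∈ (W x).powersetCard 2, prob (From (E ∩ η) E m h ∩ HitSet m (W x) h) ≤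
        prob Fx := by
      apply sum_hitSet_le (measurableSet_of_loc hK hFxl) m (W x)
      · intro h hh
        exact (Finset.mem_powersetCard.1 hh).1
      · intro h hh
        exact measurableSet_of_loc hK (hSl h hh)
      · rintro h hh A ⟨h1, h2⟩
        exact ⟨h1, h, hh, h2⟩
    have hD4 : ρ * (2 ^ m) ^ 2 * prob U ≤ (2 ^ m) ^ 2 * prob Fx := by
      refine hD1.trans ((Finset.sum_le_sum hD2).trans ?_)
      rw [← Finset.mul_sum]
      exact mul_le_mul_of_nonneg_left hD3 (by positivity)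
    have hD5 : ρ * prob U ≤ prob Fx := by
      have h1 : (2 ^ m) ^ 2 * (ρ * prob U) ≤ (2 ^ m) ^ 2 * prob Fx := by linarith
      exact le_of_mul_le_mul_left h1 (by positivity)
    have h1 := mul_le_mul_of_nonneg_left hC hρ
    calc 1 / 8 * ρ * prob η = ρ * (1 / 8 * prob η) := by ring
      _ ≤ ρ * prob U := h1
      _ ≤ prob Fx := hD5
  -- E: all blocks
  have hsum : ∑ x ∈ X, prob {A | A ∈ E ∩ η ∧ ∃ h ∈ (W x).powersetCard 2, ∃ B, B ∉ E ∧
      plant (allSpots m h) B = A} ≤ k * prob (E ∩ η) := by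
    apply sum_prob_le' X
    · intro x hx
      apply measurableSet_of_loc hK
      have hSl : ∀ h ∈ (W x).powersetCard 2, Loc K (From (E ∩ η) E m h) := fun h hh =>
        loc_from (M2.Loc.inter hE hη) hE m (fun κ hκ l hl =>
          hWK x hx κ ((Finset.mem_powersetCard.1 hh).1 hκ) l hl)
      have key : ∀ A A' : Oracle, (∀ x ∈ K, A x = A' x) →
          A ∈ {A | A ∈ E ∩ η ∧ ∃ h ∈ (W x).powersetCard 2, ∃ B, B ∉ E ∧
            plant (allSpots m h) B = A} →
          A' ∈ {A | A ∈ E ∩ η ∧ ∃ h ∈ (W x).powersetCard 2, ∃ B, B ∉ E ∧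
            plant (allSpots m h) B = A} := by
        rintro A A' hA ⟨h1, h, hh, B, hB⟩
        have h2 : A ∈ From (E ∩ η) E m h := ⟨h1, B, hB⟩
        obtain ⟨h3, B', hB'⟩ := ((hSl h hh) A A' hA).1 h2
        exact ⟨h3, h, hh, B', hB'⟩
      exact fun A A' hA => ⟨key A A' hA, key A' A fun x hx => (hA x hx).symm⟩
    · exact hEm.inter hηm
    · rintro x hx A ⟨h1, -⟩
      exact h1
    · rintro A ⟨hA, hA'⟩
      have h1 := hin A hA
      refine le_trans ?_ (Nat.cast_le.2 h1)
      apply Nat.cast_le.2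
      apply Finset.card_le_card
      intro x hx
      simp only [Finset.mem_filter] at hx ⊢
      exact ⟨hx.1, hx.2.2⟩
  have h1 : ∑ _x ∈ X, 1 / 8 * ρ * prob η ≤ k * prob (E ∩ η) := (Finset.sum_le_sum hblock).trans hsum
  rw [Finset.sum_const, nsmul_eq_mul] at h1
  have h2 : prob (E ∩ η) ≤ prob η := prob_mono Set.inter_subset_right
  have h3 : (k : ℝ) * prob (E ∩ η) ≤ k * prob η := mul_le_mul_of_nonneg_left h2 (by positivity)
  have h4 : X.card * (1 / 8 * ρ) * prob η ≤ k * prob η := by linarith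
  exact le_of_mul_le_mul_right h4 hpos

end Pool.Agent.H822R2.ESY
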