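import Pool.Agent.H628R3.RO.K2
import Pool.Agent.H822R2.ESY.Flow
import Pool.Agent.H822R2.ESY.Comb

/-!
The core of the proof: a separator of the pair built by majority vote.
-/

set_option autoImplicit false

namespace Pool.Agent.H822R2.ESY

open MeasureTheory Pool.Agent.NPC Pool.Agent.H628R3.RO

/-- The oracle `A ⊕ S`: the string `0u` is in it if `u` is in `A`, the string `1u` is in it if `u`
is in `S`. -/
def join (A S : Oracle) : Oracle
  | [] => false
  | false :: u => A u
  | true :: u => S u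

/-- the strings of length `k` -/
def strs (k : ℕ) : Finset (List Bool) :=
  Finset.univ.image (fun v : Fin k → Bool => List.ofFn v)

theorem mem_strs {k : ℕ} {r : List Bool} : r ∈ strs k ↔ r.length = k := by
  unfold strs
  rw [Finset.mem_image]
  constructor
  · rintro ⟨v, -, h⟩
    rw [← h, List.length_ofFn]
  · intro h
    subst h
    exact ⟨fun i => r.get i, Finset.mem_univ _, List.ofFn_get r⟩

theorem card_strs (k : ℕ) : (strs k).card = 2 ^ k := by
  unfold strs
  rw [Finset.card_image_of_injective _ List.ofFn_injective]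
  simp

/-- the language: the oracle encodes a string `w` of the length of `x`, which is a witness for
`x` if the `|x|` strings of the candidate `xw` are all in the oracle -/
def LL (A : Oracle) : Set (List Bool) :=
  {x | ∃ w : List Bool, w.length = x.length ∧ Hit x.length (0, x ++ w) A}

/-- the candidates for `x` -/
def Wx (n : ℕ) (x : List Bool) : Finset Cand := (strs n).image (fun w => (0, x ++ w))

theorem mem_Wx {n : ℕ} {x : List Bool} {κ : Cand} :
    κ ∈ Wx n x ↔ ∃ w : List Bool, w.length = n ∧ κ = (0, x ++ w) := by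
  unfold Wx
  rw [Finset.mem_image]
  constructor
  · rintro ⟨w, hw, rfl⟩
    exact ⟨w, mem_strs.1 hw, rfl⟩
  · rintro ⟨w, hw, rfl⟩
    exact ⟨w, mem_strs.2 hw, rfl⟩

theorem card_Wx (n : ℕ) (x : List Bool) : (Wx n x).card = 2 ^ n := by
  unfold Wx
  rw [Finset.card_image_of_injective, card_strs]
  intro w w' h
  have h1 := congrArg Prod.snd h
  exact List.append_cancel_left h1

theorem mem_LL {A : Oracle} {x : List Bool} {n : ℕ} (hx : x.length = n) :
    x ∈ LL A ↔ ∃ κ ∈ Wx n x, Hit n κ A := by
  constructor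
  · rintro ⟨w, hw, hh⟩
    rw [hx] at hw hh
    exact ⟨_, mem_Wx.2 ⟨w, hw, rfl⟩, hh⟩
  · rintro ⟨κ, hκ, hh⟩
    obtain ⟨w, hw, rfl⟩ := mem_Wx.1 hκ
    exact ⟨w, by rw [hw, hx], by rw [hx]; exact hh⟩

/-- the number of strings `r` of length `k` such that `M` accepts `(x, r)` -/
def acc (M : Alg) (O : Oracle) (x : List Bool) (k : ℕ) : ℕ :=
  ((strs k).filter (fun r => M.out O (pairBits x r) = some [true])).card

/-- the randomized algorithm `M` with oracle `A ⊕ S` is right about `x` -/
def Right (M : Alg) (k : ℕ) (A S : Oracle) (x : List Bool) : Prop :=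
  (x ∈ LL A → 2 * 2 ^ k ≤ 3 * acc M (join A S) x k) ∧
    (x ∉ LL A → 3 * acc M (join A S) x k ≤ 2 ^ k)

/-- the oracles for which nothing is wrong up to length `b`, and `M` is right about all strings of
length `n` for all separators -/
def Good (MB MC : Oracle → List Bool → Prop) (M : Alg) (k : ℕ) (t₀ : ℕ) (S₀ : List (List Bool))
    (n b : ℕ) : Set Oracle :=
  {A | (∀ q : List Bool, q.length ≤ b → ¬ (MB A q ∧ MC A q)) ∧
    (∀ q : List Bool, q.length ≤ t₀ → (MB A q → ofL S₀ q = true) ∧ (MC A q → ofL S₀ q = false)) ∧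
    ∀ S : Oracle, (∀ q : List Bool, q.length ≤ t₀ → S q = ofL S₀ q) →
      (∀ q : List Bool, q.length ≤ b → (MB A q → S q = true) ∧ (MC A q → S q = false)) →
        ∀ x : List Bool, x.length = n → Right M k A S x}

/-- the oracles for which the two sets are not disjoint -/
def EE (MB MC : Oracle → List Bool → Prop) (b : ℕ) : Set Oracle :=
  {A | ∃ q : List Bool, q.length ≤ b ∧ MB A q ∧ MC A q}

/-- a property of oracles has certificates of size `P` -/
def Cert (P : ℕ) (φ : Oracle → Prop) : Prop :=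
  ∀ A, φ A → ∃ Q : Finset (List Bool), Q.card ≤ P ∧ ∀ A' : Oracle, (∀ u ∈ Q, A' u = A u) → φ A'

theorem Cert.touch {P : ℕ} {φ : Oracle → Prop} (h : Cert P φ) (W : Finset Cand) (m : ℕ)
    {A : Oracle} (hA : φ A) : ∃ T : Finset Cand, T.card ≤ P ∧
      ∀ κ ∈ W, κ ∉ T → φ (plant (allSpots m {κ}) A) := by
  obtain ⟨Q, hQ, hQ'⟩ := h A hA
  obtain ⟨T, hT, hT'⟩ := Pool.Agent.H628R3.RO.touch W m Q
  exact ⟨T, hT.trans hQ, fun κ hκ hκT => hQ' _ fun u hu =>
    hT' {κ} (Finset.singleton_subset_iff.2 hκ) (Finset.disjoint_singleton_left.2 hκT) _ u hu⟩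

theorem plant_pair (m : ℕ) (κ κ' : Cand) (B : Oracle) :
    plant (allSpots m {κ'}) (plant (allSpots m {κ}) B) = plant (allSpots m {κ, κ'}) B := by
  funext u
  have h : u ∈ allSpots m {κ, κ'} ↔ u ∈ allSpots m {κ} ∨ u ∈ allSpots m {κ'} := by
    simp [allSpots]
  unfold plant
  by_cases h1 : u ∈ allSpots m {κ'}
  · rw [if_pos h1, if_pos (h.2 (Or.inr h1))]
  · rw [if_neg h1]
    by_cases h2 : u ∈ allSpots m {κ}
    · rw [if_pos h2, if_pos (h.2 (Or.inl h2))]
    · rw [if_neg h2, if_neg (fun h3 => (h.1 h3).elim h2 h1)]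

theorem indep_bound {MB MC : Oracle → List Bool → Prop} {M : Alg} {k t₀ : ℕ}
    {S₀ : List (List Bool)} {n b P τ : ℕ}
    (hMB : ∀ q : List Bool, q.length ≤ b → Cert P (fun A => MB A q))
    (hMC : ∀ q : List Bool, q.length ≤ b → Cert P (fun A => MC A q))
    {x : List Bool} (hx : x.length = n)
    (hM : ∀ (O : Oracle) (r : List Bool), r.length = k → ∃ Q : Finset (List Bool), Q.card ≤ τ ∧
      ∀ O' : Oracle, (∀ u ∈ Q, O' u = O u) → M.out O' (pairBits x r) = M.out O (pairBits x r))
    {B : Oracle} (hB : B ∈ Good MB MC M k t₀ S₀ n b) (hno : B ∈ NoHit n (Wx n x))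
    {I : Finset Cand} (hIW : I ⊆ Wx n x)
    (hI : ∀ κ ∈ I, plant (allSpots n {κ}) B ∈ Good MB MC M k t₀ S₀ n b)
    (hind : ∀ h ∈ I.powersetCard 2, plant (allSpots n h) B ∉ EE MB MC b) :
    I.card ≤ 3 * (τ * (2 * P + 1)) + 3 * P := by
  classical
  by_contra hcon
  push Not at hcon
  obtain ⟨pl, hpl⟩ : ∃ pl : Cand → Oracle, ∀ κ, pl κ = plant (allSpots n {κ}) B :=
    ⟨_, fun _ => rfl⟩
  -- the minority is small
  have hmin : ∀ q : List Bool, q.length ≤ b → (I.filter (fun κ => MB (pl κ) q)).card ≤ 2 * P ∨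
      (I.filter (fun κ => MC (pl κ) q)).card ≤ 2 * P := by
    intro q hq
    have h1 : ∀ κ, MB (pl κ) q → ∃ T : Finset Cand, T.card ≤ P ∧
        ∀ κ' ∈ Wx n x, κ' ∉ T → MB (plant (allSpots n {κ'}) (pl κ)) q :=
      fun κ hκ => (hMB q hq).touch (Wx n x) n hκ
    have h2 : ∀ κ, MC (pl κ) q → ∃ T : Finset Cand, T.card ≤ P ∧
        ∀ κ' ∈ Wx n x, κ' ∉ T → MC (plant (allSpots n {κ'}) (pl κ)) q :=
      fun κ hκ => (hMC q hq).touch (Wx n x) n hκ
    choose! T hT using h1
    choose! T' hT' using h2
    refine cover _ _ T T' P (fun κ hκ => (hT κ (Finset.mem_filter.1 hκ).2).1)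
      (fun κ hκ => (hT' κ (Finset.mem_filter.1 hκ).2).1) ?_
    intro κ hκ κ' hκ'
    rw [Finset.mem_filter] at hκ hκ'
    by_contra hc
    push Not at hc
    by_cases he : κ = κ'
    · subst he
      have h3 := (hI κ hκ.1).1 q hq
      rw [← hpl] at h3
      exact h3 ⟨hκ.2, hκ'.2⟩
    · apply hind {κ, κ'}
      · rw [Finset.mem_powersetCard]
        refine ⟨?_, Finset.card_pair he⟩
        intro u hu
        rcases Finset.mem_insert.1 hu with rfl | hu
        · exact hκ.1
        · rw [Finset.mem_singleton.1 hu]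
          exact hκ'.1
      · refine ⟨q, hq, ?_, ?_⟩
        · rw [← plant_pair, ← hpl]
          exact (hT κ hκ.2).2 κ' (hIW hκ'.1) hc.1
        · rw [Finset.pair_comm, ← plant_pair, ← hpl]
          exact (hT' κ' hκ'.2).2 κ (hIW hκ.1) hc.2
  -- the separator by majority
  obtain ⟨S, hS⟩ : ∃ S : Oracle, ∀ q, S q = if q.length ≤ t₀ then ofL S₀ q else
      decide (2 * P < (I.filter (fun κ => MB (pl κ) q)).card) := ⟨_, fun _ => rfl⟩
  have hSt : ∀ q : List Bool, q.length ≤ t₀ → S q = ofL S₀ q := fun q hq => by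
    rw [hS, if_pos hq]
  have hSsep : ∀ q : List Bool, q.length ≤ b → (MB B q → S q = true) ∧
      (MC B q → S q = false) := by
    intro q hq
    by_cases hqt : q.length ≤ t₀
    · rw [hSt q hqt]
      exact hB.2.1 q hqt
    · rw [hS, if_neg hqt]
      constructor
      · intro h
        obtain ⟨T, hT, hT'⟩ := (hMB q hq).touch (Wx n x) n h
        rw [decide_eq_true_iff]
        have h1 : I \ T ⊆ I.filter (fun κ => MB (pl κ) q) := by
          intro κ hκ
          rw [Finset.mem_sdiff] at hκ
          rw [Finset.mem_filter, hpl]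
          exact ⟨hκ.1, hT' κ (hIW hκ.1) hκ.2⟩
        have h2 := Finset.card_le_card h1
        have h3 := Finset.le_card_sdiff T I
        omega
      · intro h
        obtain ⟨T, hT, hT'⟩ := (hMC q hq).touch (Wx n x) n h
        rw [decide_eq_false_iff_not]
        have h1 : I \ T ⊆ I.filter (fun κ => MC (pl κ) q) := by
          intro κ hκ
          rw [Finset.mem_sdiff] at hκ
          rw [Finset.mem_filter, hpl]
          exact ⟨hκ.1, hT' κ (hIW hκ.1) hκ.2⟩
        have h2 := Finset.card_le_card h1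
        have h3 := Finset.le_card_sdiff T I
        have h4 := hmin q hq
        omega
  have hR : 3 * acc M (join B S) x k ≤ 2 ^ k := by
    refine (hB.2.2 S hSt hSsep x hx).2 ?_
    rw [mem_LL hx]
    rintro ⟨κ, hκ, hh⟩
    exact hno κ hκ hh
  -- the separators after planting
  obtain ⟨Sκ, hSκ⟩ : ∃ Sκ : Cand → Oracle, ∀ κ q, Sκ κ q =
      if t₀ < q.length ∧ q.length ≤ b then
        (if MB (pl κ) q then true else if MC (pl κ) q then false else S q) else S q :=
    ⟨_, fun _ _ => rfl⟩
  have hRκ : ∀ κ ∈ I, 2 * 2 ^ k ≤ 3 * acc M (join (pl κ) (Sκ κ)) x k := by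
    intro κ hκ
    have h1 := hI κ hκ
    rw [← hpl] at h1
    refine (h1.2.2 (Sκ κ) ?_ ?_ x hx).1 ?_
    · intro q hq
      rw [hSκ, if_neg (by omega), hSt q hq]
    · intro q hq
      by_cases hqt : q.length ≤ t₀
      · rw [hSκ, if_neg (by omega), hSt q hqt]
        exact h1.2.1 q hqt
      · rw [hSκ, if_pos ⟨by omega, hq⟩]
        constructor
        · intro h2
          rw [if_pos h2]
        · intro h2
          rw [if_neg (fun h3 => h1.1 q hq ⟨h3, h2⟩), if_pos h2]
    · rw [mem_LL hx]
      refine ⟨κ, hIW hκ, ?_⟩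
      rw [hpl]
      exact M2.hit_plant_self (Finset.mem_singleton_self κ) B
  -- few candidates are bad for a question
  have hbad : ∀ q : List Bool, (I.filter (fun κ => Sκ κ q ≠ S q)).card ≤ 2 * P := by
    intro q
    by_cases hq : t₀ < q.length ∧ q.length ≤ b
    · have hqt : ¬ q.length ≤ t₀ := by omega
      by_cases h1 : 2 * P < (I.filter (fun κ => MB (pl κ) q)).card
      · have h2 : S q = true := by
          rw [hS, if_neg hqt]
          exact decide_eq_true h1
        have h3 : (I.filter (fun κ => MC (pl κ) q)).card ≤ 2 * P := by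
          have := hmin q hq.2
          omega
        refine (Finset.card_le_card ?_).trans h3
        intro κ hκ
        rw [Finset.mem_filter] at hκ ⊢
        refine ⟨hκ.1, ?_⟩
        by_contra h4
        apply hκ.2
        rw [hSκ, if_pos hq]
        by_cases h5 : MB (pl κ) q
        · rw [if_pos h5, h2]
        · rw [if_neg h5, if_neg h4]
      · have h2 : S q = false := by
          rw [hS, if_neg hqt]
          exact decide_eq_false h1
        refine (Finset.card_le_card ?_).trans (not_lt.1 h1)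
        intro κ hκ
        rw [Finset.mem_filter] at hκ ⊢
        refine ⟨hκ.1, ?_⟩
        by_contra h4
        apply hκ.2
        rw [hSκ, if_pos hq, if_neg h4]
        by_cases h5 : MC (pl κ) q
        · rw [if_pos h5, h2]
        · rw [if_neg h5]
    · have h1 : I.filter (fun κ => Sκ κ q ≠ S q) = ∅ := by
        rw [Finset.filter_eq_empty_iff]
        intro κ _ h2
        apply h2
        rw [hSκ, if_neg hq]
      rw [h1]
      simp
  -- few candidates are bad for a run
  have haff : ∀ r : List Bool, r.length = k → ∃ T : Finset Cand, T.card ≤ τ * (2 * P + 1) ∧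
      ∀ κ ∈ I, κ ∉ T → M.out (join (pl κ) (Sκ κ)) (pairBits x r) =
        M.out (join B S) (pairBits x r) := by
    intro r hr
    obtain ⟨Q, hQ, hQ'⟩ := hM (join B S) r hr
    obtain ⟨T, hT, hT'⟩ := Pool.Agent.H628R3.RO.touch (Wx n x) n (Q.image List.tail)
    have hQt : (Q.image List.tail).card ≤ τ := Finset.card_image_le.trans hQ
    refine ⟨T ∪ (Q.image List.tail).biUnion (fun q => I.filter (fun κ => Sκ κ q ≠ S q)),
      ?_, ?_⟩
    · have h1 := Finset.card_union_le T
        ((Q.image List.tail).biUnion (fun q => I.filter (fun κ => Sκ κ q ≠ S q)))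
      have h2 : ((Q.image List.tail).biUnion (fun q => I.filter (fun κ => Sκ κ q ≠ S q))).card ≤
          (Q.image List.tail).card * (2 * P) :=
        Finset.card_biUnion_le_card_mul _ _ _ fun q _ => hbad q
      have h3 : (Q.image List.tail).card * (2 * P) ≤ τ * (2 * P) := Nat.mul_le_mul_right _ hQt
      have h4 := hT.trans hQt
      nlinarith
    · intro κ hκ hκT
      rw [Finset.mem_union, not_or] at hκT
      refine hQ' _ fun u hu => ?_
      match u, hu with
      | [], _ => rfl
      | false :: v, hu =>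
        have hv : v ∈ Q.image List.tail := Finset.mem_image.2 ⟨_, hu, rfl⟩
        show pl κ v = B v
        rw [hpl]
        exact hT' {κ} (Finset.singleton_subset_iff.2 (hIW hκ))
          (Finset.disjoint_singleton_left.2 hκT.1) B v hv
      | true :: v, hu =>
        have hv : v ∈ Q.image List.tail := Finset.mem_image.2 ⟨_, hu, rfl⟩
        show Sκ κ v = S v
        by_contra h1
        exact hκT.2 (Finset.mem_biUnion.2 ⟨v, hv, Finset.mem_filter.2 ⟨hκ, h1⟩⟩)
  choose! T hT using haff
  -- a candidate which is bad for few runs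
  obtain ⟨κ, hκ, hκ'⟩ : ∃ κ ∈ I, 3 * ((strs k).filter (fun r => κ ∈ T r)).card < 2 ^ k := by
    by_contra hc
    push Not at hc
    have h1 : I.card * 2 ^ k ≤ ∑ κ ∈ I, 3 * ((strs k).filter (fun r => κ ∈ T r)).card := by
      rw [← smul_eq_mul, ← Finset.sum_const]
      exact Finset.sum_le_sum hc
    have h2 : ∑ κ ∈ I, ((strs k).filter (fun r => κ ∈ T r)).card =
        ∑ r ∈ strs k, (I.filter (fun κ => κ ∈ T r)).card := by
      simp only [Finset.card_filter]
      rw [Finset.sum_comm]
    have h3 : ∑ r ∈ strs k, (I.filter (fun κ => κ ∈ T r)).card ≤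
        2 ^ k * (τ * (2 * P + 1)) := by
      rw [← card_strs k, ← smul_eq_mul, ← Finset.sum_const]
      refine Finset.sum_le_sum fun r hr => ?_
      refine (Finset.card_le_card ?_).trans (hT r (mem_strs.1 hr)).1
      intro u hu
      exact (Finset.mem_filter.1 hu).2
    rw [← Finset.mul_sum, h2] at h1
    have h4 : I.card * 2 ^ k ≤ (3 * (τ * (2 * P + 1))) * 2 ^ k := by
      calc I.card * 2 ^ k ≤ 3 * (2 ^ k * (τ * (2 * P + 1))) :=
            h1.trans (Nat.mul_le_mul_left _ h3)
        _ = _ := by ring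
    have h5 := Nat.le_of_mul_le_mul_right h4 (by positivity)
    omega
  have h1 : acc M (join (pl κ) (Sκ κ)) x k ≤ acc M (join B S) x k +
      ((strs k).filter (fun r => κ ∈ T r)).card := by
    unfold acc
    refine le_trans (Finset.card_le_card ?_) (Finset.card_union_le _ _)
    intro r hr
    rw [Finset.mem_filter] at hr
    rw [Finset.mem_union, Finset.mem_filter, Finset.mem_filter]
    by_cases h2 : κ ∈ T r
    · exact Or.inr ⟨hr.1, h2⟩
    · left
      refine ⟨hr.1, ?_⟩
      rw [← (hT r (mem_strs.1 hr.1)).2 κ hκ h2]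
      exact hr.2
  have h2 := hRκ κ hκ
  omega

end Pool.Agent.H822R2.ESY
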