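import Pool.Agent.H822R2.ESY.Main

/-!
Relative to a random oracle, no disjoint `NP` pair is `NP`-hard: the statement and the end of the
proof.
-/

set_option autoImplicit false

namespace Pool.Agent.H822R2.ESY

open MeasureTheory Pool.Agent.NPC Pool.Agent.H628R3.RO

/-- `L` is decided in polynomial time relative to the oracle `O`. -/
def IsP (O : Oracle) (L : Set (List Bool)) : Prop :=
  ∃ F : List Bool → List Bool, IsFP O F ∧ ∀ x, x ∈ L ↔ F x = [true]

/-- `L` is decided in polynomial time relative to the oracle `O` by a randomized algorithm with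
error at most `1/3`: on input `x` it uses a random string `r` of length `p(|x|)`, and at least two
thirds of all these strings lead to acceptance if `x` is in `L`, at most one third otherwise. -/
def IsBPP (O : Oracle) (L : Set (List Bool)) : Prop :=
  ∃ (F : List Bool → List Bool) (p : Polynomial ℕ), IsFP O F ∧ ∀ x : List Bool,
    (x ∈ L → 2 * 2 ^ p.eval x.length ≤
      3 * ((strs (p.eval x.length)).filter (fun r => F (pairBits x r) = [true])).card) ∧
    (x ∉ L → 3 * ((strs (p.eval x.length)).filter (fun r => F (pairBits x r) = [true])).card ≤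
      2 ^ p.eval x.length)

theorem IsP.isBPP {O : Oracle} {L : Set (List Bool)} (h : IsP O L) : IsBPP O L := by
  obtain ⟨F, hF, hFL⟩ := h
  refine ⟨fun y => F ((fun y => (unpair y).1) y), 0, IsFP.comp hF
    (IsFP.of_poly (Poly.fst poly_unpair)), fun x => ?_⟩
  simp only [unpair_pairBits, Polynomial.eval_zero, pow_zero, mul_one]
  constructor
  · intro hx
    have h1 : (strs 0).filter (fun _ => F x = [true]) = strs 0 :=
      Finset.filter_true_of_mem fun _ _ => (hFL x).1 hx
    rw [h1, card_strs]
    norm_num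
  · intro hx
    have h1 : (strs 0).filter (fun _ => F x = [true]) = ∅ :=
      Finset.filter_false_of_mem fun _ _ => fun h => hx ((hFL x).2 h)
    rw [h1]
    simp

theorem main : ∀ᵐ A ∂randomOracle, ∃ L : Set (List Bool), IsNP A L ∧
    ∀ B C : Set (List Bool), IsPair (IsNP A) B C → ∃ S : Oracle, (∀ q ∈ B, S q = true) ∧
      (∀ q ∈ C, S q = false) ∧ ¬ IsP (join A S) L ∧ ¬ IsBPP (join A S) L := by
  filter_upwards [ae_all] with A hA
  refine ⟨LL A, isNP_LL A, ?_⟩
  rintro B C ⟨⟨fB, pB, ⟨VB, hVB⟩, hB⟩, ⟨fC, pC, ⟨VC, hVC⟩, hC⟩, hdis⟩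
  have hB' : ∀ q, q ∈ B ↔ Mem VB pB A q := by
    intro q
    rw [hB q]
    unfold Mem
    refine exists_congr fun w => and_congr_right fun _ => ?_
    rw [hVB, Option.some_inj]
  have hC' : ∀ q, q ∈ C ↔ Mem VC pC A q := by
    intro q
    rw [hC q]
    unfold Mem
    refine exists_congr fun w => and_congr_right fun _ => ?_
    rw [hVC, Option.some_inj]
  obtain ⟨S, hS, hS'⟩ := exists_sep (A := A) (VB := VB) (pB := pB) (VC := VC) (pC := pC)
    (fun q hq => hdis q ⟨(hB' q).2 hq.1, (hC' q).2 hq.2⟩) (hA VB pB VC pC)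
  have hbpp : ¬ IsBPP (join A S) (LL A) := by
    rintro ⟨F, p, ⟨M, hM⟩, hF⟩
    obtain ⟨x, hx⟩ := hS' M p
    apply hx
    have h1 : acc M (join A S) x (p.eval x.length) = ((strs (p.eval x.length)).filter
        (fun r => F (pairBits x r) = [true])).card := by
      unfold acc
      congr 1
      apply Finset.filter_congr
      intro r _
      rw [hM, Option.some_inj]
    unfold Right
    rw [h1]
    exact hF x
  exact ⟨S, fun q hq => (hS q).1 ((hB' q).1 hq), fun q hq => (hS q).2 ((hC' q).1 hq),
    fun h => hbpp h.isBPP, hbpp⟩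

end Pool.Agent.H822R2.ESY
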