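import Pool.Agent.H628R3.RO.M3
import Pool.Agent.H628R3.RO.D2
import Pool.Agent.H822R2.ESY.Core

/-!
The key inequality, and what it says about almost every oracle.
-/

set_option autoImplicit false

namespace Pool.Agent.H822R2.ESY

open MeasureTheory Pool.Agent.NPC Pool.Agent.H628R3.RO

open scoped Classical in
/-- an oracle for which the two sets are not disjoint can be repaired in few blocks only -/
theorem repair_few {MB MC : Oracle → List Bool → Prop} {n b P : ℕ}
    (hMB : ∀ q : List Bool, q.length ≤ b → Cert P (fun A => MB A q))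
    (hMC : ∀ q : List Bool, q.length ≤ b → Cert P (fun A => MC A q))
    {A : Oracle} (hA : A ∈ EE MB MC b) :
    ((strs n).filter (fun x => ∃ h ∈ (Wx n x).powersetCard 2, ∃ B, B ∉ EE MB MC b ∧
      plant (allSpots n h) B = A)).card ≤ 2 * P := by
  obtain ⟨q, hq, h1, h2⟩ := hA
  obtain ⟨Q, hQ, hQ1⟩ := hMB q hq A h1
  obtain ⟨Q', hQ', hQ1'⟩ := hMC q hq A h2
  have key : ∀ x ∈ (strs n).filter (fun x => ∃ h ∈ (Wx n x).powersetCard 2, ∃ B,
      B ∉ EE MB MC b ∧ plant (allSpots n h) B = A), ∃ u ∈ Q ∪ Q', ∃ (i : ℕ) (w : List Bool),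
      u = pos 0 i (x ++ w) := by
    intro x hx
    simp only [Finset.mem_filter] at hx
    obtain ⟨-, h, hh, B, hB, rfl⟩ := hx
    by_contra hc
    push Not at hc
    apply hB
    have h3 : ∀ u ∈ Q ∪ Q', B u = plant (allSpots n h) B u := by
      intro u hu
      unfold plant
      rw [if_neg]
      intro h4
      obtain ⟨κ, hκ, i, hi, h5⟩ := mem_allSpots.1 h4
      obtain ⟨w, hw, rfl⟩ := mem_Wx.1 ((Finset.mem_powersetCard.1 hh).1 hκ)
      exact hc u hu i w h5
    exact ⟨q, hq, hQ1 B fun u hu => h3 u (Finset.mem_union_left _ hu),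
      hQ1' B fun u hu => h3 u (Finset.mem_union_right _ hu)⟩
  choose! f hf using key
  have h3 : (Q ∪ Q').card ≤ 2 * P := by
    have := Finset.card_union_le Q Q'
    omega
  refine le_trans (Finset.card_le_card_of_injOn f (fun x hx => (hf x hx).1) ?_) h3
  intro x hx x' hx' he
  obtain ⟨-, i, w, h4⟩ := hf x hx
  obtain ⟨-, i', w', h5⟩ := hf x' hx'
  rw [he, h5] at h4
  have h6 := (pos_inj h4).2.2
  have hx1 : x.length = n := mem_strs.1 (Finset.mem_filter.1 (Finset.mem_coe.1 hx)).1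
  have hx2 : x'.length = n := mem_strs.1 (Finset.mem_filter.1 (Finset.mem_coe.1 hx')).1
  exact (List.append_inj h6 (by rw [hx1, hx2])).1.symm

open scoped Classical in
theorem many_pairs {MB MC : Oracle → List Bool → Prop} {M : Alg} {k t₀ : ℕ}
    {S₀ : List (List Bool)} {n b P τ : ℕ}
    (hMB : ∀ q : List Bool, q.length ≤ b → Cert P (fun A => MB A q))
    (hMC : ∀ q : List Bool, q.length ≤ b → Cert P (fun A => MC A q))
    {x : List Bool} (hx : x.length = n)
    (hM : ∀ (O : Oracle) (r : List Bool), r.length = k → ∃ Q : Finset (List Bool), Q.card ≤ τ ∧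
      ∀ O' : Oracle, (∀ u ∈ Q, O' u = O u) → M.out O' (pairBits x r) = M.out O (pairBits x r))
    {B : Oracle} (hB : B ∈ Good MB MC M k t₀ S₀ n b) (hno : B ∈ NoHit n (Wx n x))
    {s : ℕ} (hs : s = 3 * (τ * (2 * P + 1)) + 3 * P + 1) (hbig : 4 * s ≤ 2 ^ n)
    {G : Finset Cand} (hGW : G ⊆ Wx n x)
    (hG : ∀ κ ∈ G, plant (allSpots n {κ}) B ∈ Good MB MC M k t₀ S₀ n b)
    (hGc : 2 ^ n ≤ 2 * G.card) :
    (2 ^ n) ^ 2 ≤ 16 * s * (((Wx n x).powersetCard 2).filter
      (fun h => plant (allSpots n h) B ∈ EE MB MC b)).card := by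
  have h1 := turan (fun h => plant (allSpots n h) B ∈ EE MB MC b) s G.card G rfl (by
    intro I hI hI'
    have h2 := indep_bound hMB hMC hx hM hB hno (hI.trans hGW) (fun κ hκ => hG κ (hI hκ)) hI'
    omega)
  have h2 : (((G.powersetCard 2).filter
      (fun h => plant (allSpots n h) B ∈ EE MB MC b))).card ≤
      (((Wx n x).powersetCard 2).filter
      (fun h => plant (allSpots n h) B ∈ EE MB MC b)).card :=
    Finset.card_le_card (Finset.filter_subset_filter _ (Finset.powersetCard_mono hGW))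
  set e := (((G.powersetCard 2).filter
      (fun h => plant (allSpots n h) B ∈ EE MB MC b))).card with he
  set e' := (((Wx n x).powersetCard 2).filter
      (fun h => plant (allSpots n h) B ∈ EE MB MC b)).card with he'
  set g := G.card with hg
  have h3 : 2 * s ≤ g := by omega
  have h4 : (2 ^ n) ^ 2 ≤ 4 * g ^ 2 := by
    calc (2 ^ n) ^ 2 ≤ (2 * g) ^ 2 := Nat.pow_le_pow_left hGc 2
      _ = 4 * g ^ 2 := by ring
  have h5 : g ^ 2 ≤ 4 * (s * e) := by nlinarith
  have h6 : s * e ≤ s * e' := Nat.mul_le_mul_left _ h2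
  calc (2 ^ n) ^ 2 ≤ 4 * g ^ 2 := h4
    _ ≤ 4 * (4 * (s * e')) := Nat.mul_le_mul_left _ (h5.trans (Nat.mul_le_mul_left _ h6))
    _ = 16 * s * e' := by ring

theorem loc_Good {MB MC : Oracle → List Bool → Prop} {M : Alg} {k t₀ : ℕ}
    {S₀ : List (List Bool)} {n b R : ℕ} (ht₀ : t₀ ≤ b)
    (hMB : ∀ q : List Bool, q.length ≤ b → Loc {u | u.length ≤ R} {A | MB A q})
    (hMC : ∀ q : List Bool, q.length ≤ b → Loc {u | u.length ≤ R} {A | MC A q})
    (hM : ∀ (A A' S : Oracle) (x : List Bool), x.length = n →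
      (∀ u : List Bool, u.length ≤ R → A u = A' u) →
        acc M (join A S) x k = acc M (join A' S) x k)
    (hR : 3 * n + 2 ≤ R) :
    Loc {u | u.length ≤ R} (Good MB MC M k t₀ S₀ n b) := by
  refine loc_of_imp fun A A' hA => ?_
  have h1 : ∀ q : List Bool, q.length ≤ b → (MB A q ↔ MB A' q) := fun q hq => hMB q hq A A' hA
  have h2 : ∀ q : List Bool, q.length ≤ b → (MC A q ↔ MC A' q) := fun q hq => hMC q hq A A' hA
  have h3 : ∀ x : List Bool, x.length = n → (x ∈ LL A ↔ x ∈ LL A') := by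
    intro x hx
    rw [mem_LL hx, mem_LL hx]
    refine exists_congr fun κ => and_congr_right fun hκ => ?_
    obtain ⟨w, hw, rfl⟩ := mem_Wx.1 hκ
    unfold Hit
    refine forall₂_congr fun i hi => ?_
    rw [hA]
    show (pos 0 i (x ++ w)).length ≤ R
    rw [length_pos, List.length_append, hx, hw]
    omega
  rintro ⟨g1, g2, g3⟩
  refine ⟨fun q hq => ?_, fun q hq => ?_, fun S hS hS' x hx => ?_⟩
  · rw [← h1 q hq, ← h2 q hq]
    exact g1 q hq
  · rw [← h1 q (hq.trans ht₀), ← h2 q (hq.trans ht₀)]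
    exact g2 q hq
  · have h4 := g3 S hS (fun q hq => by
      rw [h1 q hq, h2 q hq]
      exact hS' q hq) x hx
    unfold Right at h4 ⊢
    rw [← h3 x hx, ← hM A A' S x hx hA]
    exact h4

theorem key_abs {MB MC : Oracle → List Bool → Prop} {M : Alg} {k t₀ : ℕ}
    {S₀ : List (List Bool)} {n b P τ R : ℕ} (hn : 1 ≤ n) (ht₀ : t₀ ≤ b)
    (hMB : ∀ q : List Bool, q.length ≤ b → Cert P (fun A => MB A q))
    (hMC : ∀ q : List Bool, q.length ≤ b → Cert P (fun A => MC A q))
    (hMB' : ∀ q : List Bool, q.length ≤ b → Loc {u | u.length ≤ R} {A | MB A q})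
    (hMC' : ∀ q : List Bool, q.length ≤ b → Loc {u | u.length ≤ R} {A | MC A q})
    (hM : ∀ (O : Oracle) (x r : List Bool), x.length = n → r.length = k →
      ∃ Q : Finset (List Bool), Q.card ≤ τ ∧
      ∀ O' : Oracle, (∀ u ∈ Q, O' u = O u) → M.out O' (pairBits x r) = M.out O (pairBits x r))
    (hM' : ∀ (A A' S : Oracle) (x : List Bool), x.length = n →
      (∀ u : List Bool, u.length ≤ R → A u = A' u) →
        acc M (join A S) x k = acc M (join A' S) x k)
    (hR : 3 * n + 2 ≤ R)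
    {s : ℕ} (hs : s = 3 * (τ * (2 * P + 1)) + 3 * P + 1) (hbig : 4 * s ≤ 2 ^ n)
    (hbig' : 256 * s * P < 2 ^ n) {t : ℕ} (ht : t < n) (L : List (List Bool))
    (hpos : 0 < prob (cyl t L)) :
    1 / 24 * prob (cyl t L) < prob (cyl t L \ (Good MB MC M k t₀ S₀ n b ∩ cyl t L)) := by
  classical
  by_contra hcon
  push Not at hcon
  have hcyl : Loc {u : List Bool | u.length ≤ R} (cyl t L) := by
    refine M2.Loc.mono (loc_cyl t L) ?_
    intro u hu
    simp only [Set.mem_ofPred_eq] at hu ⊢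
    omega
  have hGl := loc_Good (S₀ := S₀) ht₀ hMB' hMC' hM' hR
  have hEl : Loc {u : List Bool | u.length ≤ R} (EE MB MC b) := by
    refine loc_of_imp fun A A' hA => ?_
    rintro ⟨q, hq, h1, h2⟩
    exact ⟨q, hq, (hMB' q hq A A' hA).1 h1, (hMC' q hq A A' hA).1 h2⟩
  have hs0 : (0 : ℝ) < s := by
    rw [hs]
    push_cast
    positivity
  have h := flow (finite_length_le R) (Z := Good MB MC M k t₀ S₀ n b ∩ cyl t L)
    (E := EE MB MC b) (η := cyl t L) (M2.Loc.inter hGl hcyl) hEl hcyl Set.inter_subset_right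
    (fun B hB hE => by
      obtain ⟨q, hq, h1, h2⟩ := hE
      exact hB.1.1 q hq ⟨h1, h2⟩)
    (strs n) (Wx n) hn (fun x _ => card_Wx n x)
    (fun x hx κ hκ l hl => by
      obtain ⟨w, hw, rfl⟩ := mem_Wx.1 hκ
      show (pos 0 l (x ++ w)).length ≤ R
      rw [length_pos, List.length_append, mem_strs.1 hx, hw]
      omega)
    (fun x hx h hh B => by
      refine loc_cyl t L _ _ fun u hu => ?_
      unfold plant
      rw [if_neg]
      intro hmem
      obtain ⟨κ, hκ, i, hi, rfl⟩ := mem_allSpots.1 hmem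
      obtain ⟨w, hw, rfl⟩ := mem_Wx.1 (hh hκ)
      have h1 : (pos 0 i (x ++ w)).length ≤ t := hu
      rw [length_pos, List.length_append, mem_strs.1 hx, hw] at h1
      omega)
    hcon (1 / (16 * s)) (by positivity)
    (fun x hx B hB hno hc => by
      have h1 := many_pairs hMB hMC (mem_strs.1 hx) (fun O r hr => hM O x r (mem_strs.1 hx) hr)
        hB.1 hno hs hbig
        (G := (Wx n x).filter (fun κ => plant (allSpots n {κ}) B ∈
          Good MB MC M k t₀ S₀ n b ∩ cyl t L))
        (Finset.filter_subset _ _)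
        (fun κ hκ => by
          simp only [Finset.mem_filter] at hκ
          exact hκ.2.1) (by convert hc)
      have h2 : ((2 : ℝ) ^ n) ^ 2 ≤ 16 * s * ((((Wx n x).powersetCard 2).filter
          (fun h => plant (allSpots n h) B ∈ EE MB MC b)).card : ℝ) := by
        exact_mod_cast h1
      rw [one_div, inv_mul_le_iff₀ (by positivity)]
      exact h2)
    (2 * P) (fun A hA => repair_few hMB hMC hA) hpos
  rw [card_strs] at h
  push_cast at h
  have h1 : (2 : ℝ) ^ n * (1 / 8 * (1 / (16 * s))) = 2 ^ n / (128 * s) := by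
    field_simp
    ring
  rw [h1, div_le_iff₀ (by positivity)] at h
  have h2 : ((256 * s * P : ℕ) : ℝ) < ((2 ^ n : ℕ) : ℝ) := Nat.cast_lt.2 hbig'
  push_cast at h2
  linarith

end Pool.Agent.H822R2.ESY
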