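import Pool.Agent.H628R3.RO.G1
import Pool.Agent.H822R2.ESY.Key

/-!
Almost every oracle, and the construction of the separator in stages.
-/

set_option autoImplicit false

namespace Pool.Agent.H822R2.ESY

open MeasureTheory Pool.Agent.NPC Pool.Agent.H628R3.RO

/-- the set in `NP` relative to `A` which is given by the verifier `V` and the polynomial `p` -/
def Mem (V : Alg) (p : Polynomial ℕ) (A : Oracle) (q : List Bool) : Prop :=
  ∃ w : List Bool, w.length ≤ p.eval q.length ∧ V.out A (pairBits q w) = some [true]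

theorem Cert.mono {P P' : ℕ} (h : P ≤ P') {φ : Oracle → Prop} (hφ : Cert P φ) : Cert P' φ := by
  intro A hA
  obtain ⟨Q, hQ, hQ'⟩ := hφ A hA
  exact ⟨Q, hQ.trans h, hQ'⟩

theorem cert_Mem (V : Alg) (p : Polynomial ℕ) {b : ℕ} {q : List Bool} (hq : q.length ≤ b) :
    Cert (V.p.eval (2 * b + 1 + p.eval b)) (fun A => Mem V p A q) := by
  rintro A ⟨w, hw, hV⟩
  obtain ⟨qb, h⟩ := V.out_local
  obtain ⟨Q, hQ, -, hQ'⟩ := h A (pairBits q w)
  refine ⟨Q, hQ.trans (eval_mono _ ?_), fun A' hA' => ⟨w, hw, ?_⟩⟩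
  · rw [length_pairBits]
    have := eval_mono p hq
    omega
  · rw [hQ' A' hA', hV]

/-- a polynomial bound for the lengths of the questions of `M` -/
noncomputable def bnd (M : Alg) : Polynomial ℕ := Classical.choose M.out_congr

theorem bnd_spec (M : Alg) : ∀ (A A' : Oracle) (u : List Bool) (N : ℕ),
    u.length ≤ N → (∀ x : List Bool, x.length ≤ (bnd M).eval N → A x = A' x) →
      M.out A u = M.out A' u :=
  Classical.choose_spec M.out_congr

theorem loc_Mem (V : Alg) (p : Polynomial ℕ) {b R : ℕ}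
    (hR : (bnd V).eval (2 * b + 1 + p.eval b) ≤ R) {q : List Bool} (hq : q.length ≤ b) :
    Loc {u | u.length ≤ R} {A | Mem V p A q} := by
  refine loc_of_imp fun A A' hA => ?_
  rintro ⟨w, hw, hV⟩
  refine ⟨w, hw, ?_⟩
  rw [← hV]
  symm
  apply bnd_spec V A A' _ (2 * b + 1 + p.eval b)
  · rw [length_pairBits]
    have := eval_mono p hq
    omega
  · intro z hz
    exact hA z (hz.trans hR)

/-- the lengths up to which everything is controlled -/
noncomputable def bb (M : Alg) (ρ : Polynomial ℕ) (t₀ n : ℕ) : ℕ :=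
  t₀ + (bnd M).eval (2 * n + 1 + ρ.eval n)

theorem acc_congr {M : Alg} {ρ : Polynomial ℕ} {n b : ℕ}
    (hb : (bnd M).eval (2 * n + 1 + ρ.eval n) ≤ b) {A A' S S' : Oracle} {x : List Bool}
    (hx : x.length = n) (hA : ∀ u : List Bool, u.length ≤ b → A u = A' u)
    (hS : ∀ u : List Bool, u.length ≤ b → S u = S' u) :
    acc M (join A S) x (ρ.eval n) = acc M (join A' S') x (ρ.eval n) := by
  unfold acc
  congr 1
  apply Finset.filter_congr
  intro r hr
  rw [bnd_spec M (join A S) (join A' S') (pairBits x r) (2 * n + 1 + ρ.eval n)]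
  · rw [length_pairBits, hx, mem_strs.1 hr]
  · intro z hz
    match z, hz with
    | [], _ => rfl
    | false :: v, hz =>
      simp only [List.length_cons] at hz
      exact hA v (by omega)
    | true :: v, hz =>
      simp only [List.length_cons] at hz
      exact hS v (by omega)

/-- the questions of a run -/
theorem cert_M (M : Alg) (ρ : Polynomial ℕ) (n : ℕ) (O : Oracle) (x r : List Bool)
    (hx : x.length = n) (hr : r.length = ρ.eval n) : ∃ Q : Finset (List Bool),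
      Q.card ≤ M.p.eval (2 * n + 1 + ρ.eval n) ∧
      ∀ O' : Oracle, (∀ u ∈ Q, O' u = O u) → M.out O' (pairBits x r) = M.out O (pairBits x r) := by
  obtain ⟨qb, h⟩ := M.out_local
  obtain ⟨Q, hQ, -, hQ'⟩ := h O (pairBits x r)
  rw [length_pairBits, hx, hr] at hQ
  exact ⟨Q, hQ, hQ'⟩

/-- the good oracles, for given algorithms -/
noncomputable def GG (VB : Alg) (pB : Polynomial ℕ) (VC : Alg) (pC : Polynomial ℕ) (M : Alg)
    (ρ : Polynomial ℕ) (t₀ : ℕ) (S₀ : List (List Bool)) (n : ℕ) : Set Oracle :=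
  Good (Mem VB pB) (Mem VC pC) M (ρ.eval n) t₀ S₀ n (bb M ρ t₀ n)

section

variable (VB : Alg) (pB : Polynomial ℕ) (VC : Alg) (pC : Polynomial ℕ) (M : Alg)
    (ρ : Polynomial ℕ) (t₀ : ℕ) (S₀ : List (List Bool))

/-- a bound for the lengths of all questions -/
noncomputable def RR (n : ℕ) : ℕ :=
  (bnd VB).eval (2 * bb M ρ t₀ n + 1 + pB.eval (bb M ρ t₀ n)) +
    (bnd VC).eval (2 * bb M ρ t₀ n + 1 + pC.eval (bb M ρ t₀ n)) + bb M ρ t₀ n + (3 * n + 2)

theorem loc_GG (n : ℕ) : Loc {u | u.length ≤ RR VB pB VC pC M ρ t₀ n}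
    (GG VB pB VC pC M ρ t₀ S₀ n) := by
  refine loc_Good (by unfold bb; omega) (fun q hq => loc_Mem VB pB ?_ hq)
    (fun q hq => loc_Mem VC pC ?_ hq) ?_ ?_
  · unfold RR
    omega
  · unfold RR
    omega
  · intro A A' S x hx hA
    refine acc_congr (b := bb M ρ t₀ n) ?_ hx (fun u hu => hA u ?_) (fun _ _ => rfl)
    · unfold bb
      omega
    · unfold RR
      omega
  · unfold RR
    omega

theorem key : ∃ n₀, ∀ n ≥ n₀, ∀ t < n, ∀ L : List (List Bool), 0 < prob (cyl t L) →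
    1 / 24 * prob (cyl t L) < prob (cyl t L \ (GG VB pB VC pC M ρ t₀ S₀ n ∩ cyl t L)) := by
  obtain ⟨bP, hbP⟩ : ∃ bP : Polynomial ℕ, bP = Polynomial.C t₀ +
    (bnd M).comp (Polynomial.C 2 * Polynomial.X + Polynomial.C 1 + ρ) := ⟨_, rfl⟩
  obtain ⟨PP, hPP⟩ : ∃ PP : Polynomial ℕ,
    PP = (VB.p.comp (Polynomial.C 2 * Polynomial.X + Polynomial.C 1 + pB) +
      VC.p.comp (Polynomial.C 2 * Polynomial.X + Polynomial.C 1 + pC)).comp bP := ⟨_, rfl⟩
  obtain ⟨τP, hτP⟩ : ∃ τP : Polynomial ℕ,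
    τP = M.p.comp (Polynomial.C 2 * Polynomial.X + Polynomial.C 1 + ρ) := ⟨_, rfl⟩
  obtain ⟨sP, hsP⟩ : ∃ sP : Polynomial ℕ, sP = Polynomial.C 3 *
    (τP * (Polynomial.C 2 * PP + Polynomial.C 1)) + Polynomial.C 3 * PP + Polynomial.C 1 :=
    ⟨_, rfl⟩
  obtain ⟨n₀, hn₀⟩ := poly_le_two_pow (Polynomial.C 256 * sP * PP + Polynomial.C 4 * sP +
    Polynomial.C 1)
  refine ⟨max n₀ 1, fun n hn t ht L hpos => ?_⟩
  have h1 := hn₀ n (le_trans (le_max_left _ _) hn)
  have hn1 : 1 ≤ n := le_trans (le_max_right _ _) hn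
  have ebP : bP.eval n = bb M ρ t₀ n := by
    rw [hbP]
    unfold bb
    simp only [Polynomial.eval_add, Polynomial.eval_C, Polynomial.eval_comp, Polynomial.eval_mul,
      Polynomial.eval_X]
  have ePP : PP.eval n = VB.p.eval (2 * bb M ρ t₀ n + 1 + pB.eval (bb M ρ t₀ n)) +
      VC.p.eval (2 * bb M ρ t₀ n + 1 + pC.eval (bb M ρ t₀ n)) := by
    rw [hPP]
    simp only [Polynomial.eval_add, Polynomial.eval_C, Polynomial.eval_comp, Polynomial.eval_mul,
      Polynomial.eval_X, ebP]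
  have eτP : τP.eval n = M.p.eval (2 * n + 1 + ρ.eval n) := by
    rw [hτP]
    simp only [Polynomial.eval_add, Polynomial.eval_C, Polynomial.eval_comp, Polynomial.eval_mul,
      Polynomial.eval_X]
  have esP : sP.eval n = 3 * (τP.eval n * (2 * PP.eval n + 1)) + 3 * PP.eval n + 1 := by
    rw [hsP]
    simp only [Polynomial.eval_add, Polynomial.eval_C, Polynomial.eval_mul]
  simp only [Polynomial.eval_add, Polynomial.eval_C, Polynomial.eval_mul] at h1
  refine key_abs (P := PP.eval n) (τ := τP.eval n) (s := sP.eval n)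
    (R := RR VB pB VC pC M ρ t₀ n) hn1 (by unfold bb; omega) ?_ ?_ ?_ ?_ ?_ ?_ ?_ esP ?_ ?_ ht L
    hpos
  · intro q hq
    exact (cert_Mem VB pB hq).mono (by rw [ePP]; omega)
  · intro q hq
    exact (cert_Mem VC pC hq).mono (by rw [ePP]; omega)
  · intro q hq
    exact loc_Mem VB pB (by unfold RR; omega) hq
  · intro q hq
    exact loc_Mem VC pC (by unfold RR; omega) hq
  · intro O x r hx hr
    rw [eτP]
    exact cert_M M ρ n O x r hx hr
  · intro A A' S x hx hA
    refine acc_congr (b := bb M ρ t₀ n) ?_ hx (fun u hu => hA u ?_) (fun _ _ => rfl)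
    · unfold bb
      omega
    · unfold RR
      omega
  · unfold RR
    omega
  · omega
  · omega

theorem ae_GG : ∀ᵐ A ∂randomOracle, ∃ n, A ∉ GG VB pB VC pC M ρ t₀ S₀ n := by
  have hm : ∀ n, MeasurableSet (GG VB pB VC pC M ρ t₀ S₀ n) := fun n =>
    measurableSet_of_loc (finite_length_le _) (loc_GG VB pB VC pC M ρ t₀ S₀ n)
  have hI : MeasurableSet (⋂ n, GG VB pB VC pC M ρ t₀ S₀ n) := MeasurableSet.iInter hm
  have h0 : randomOracle (⋂ n, GG VB pB VC pC M ρ t₀ S₀ n) = 0 := by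
    by_contra hne
    have hpos : 0 < prob (⋂ n, GG VB pB VC pC M ρ t₀ S₀ n) :=
      ENNReal.toReal_pos hne (measure_ne_top _ _)
    obtain ⟨t, L, h1, h2⟩ := exists_cyl hI hpos (δ := 1 / 24) (by norm_num)
    obtain ⟨n₀, hn₀⟩ := key VB pB VC pC M ρ t₀ S₀
    have h3 := hn₀ (max n₀ (t + 1)) (le_max_left _ _) t
      (lt_of_lt_of_le (Nat.lt_succ_self t) (le_max_right _ _)) L h1
    set n := max n₀ (t + 1) with hn
    have hcm : MeasurableSet (cyl t L) :=
      measurableSet_of_loc (finite_length_le t) (loc_cyl t L)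
    have h4 : prob (cyl t L) = prob (cyl t L ∩ (GG VB pB VC pC M ρ t₀ S₀ n ∩ cyl t L)) +
        prob (cyl t L \ (GG VB pB VC pC M ρ t₀ S₀ n ∩ cyl t L)) := by
      unfold prob
      rw [measureReal_inter_add_sdiff ((hm n).inter hcm)]
    have h5 : prob ((⋂ n, GG VB pB VC pC M ρ t₀ S₀ n) ∩ cyl t L) ≤
        prob (cyl t L ∩ (GG VB pB VC pC M ρ t₀ S₀ n ∩ cyl t L)) := by
      apply M2.prob_mono
      rintro A ⟨hA1, hA2⟩
      exact ⟨hA2, Set.mem_iInter.1 hA1 n, hA2⟩
    linarith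
  have h1 : ∀ᵐ A ∂randomOracle, A ∉ ⋂ n, GG VB pB VC pC M ρ t₀ S₀ n :=
    measure_eq_zero_iff_ae_notMem.1 h0
  filter_upwards [h1] with A hA
  rw [Set.mem_iInter] at hA
  push Not at hA
  exact hA

end

instance countable_poly : Countable (Polynomial ℕ) := by
  have : Function.Injective (fun p : Polynomial ℕ => (p.toFinsupp.coeff : ℕ →₀ ℕ)) := by
    intro p q h
    ext n
    exact DFunLike.congr_fun h n
  exact this.countable

theorem ae_all : ∀ᵐ A ∂randomOracle, ∀ (VB : Alg) (pB : Polynomial ℕ) (VC : Alg)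
    (pC : Polynomial ℕ) (M : Alg) (ρ : Polynomial ℕ) (t₀ : ℕ) (S₀ : List (List Bool)),
      ∃ n, A ∉ GG VB pB VC pC M ρ t₀ S₀ n := by
  simp only [ae_all_iff]
  intro VB pB VC pC M ρ t₀ S₀
  exact ae_GG VB pB VC pC M ρ t₀ S₀

section

variable {A : Oracle} {VB : Alg} {pB : Polynomial ℕ} {VC : Alg} {pC : Polynomial ℕ}

/-- `S` separates the two sets -/
def Sep (A : Oracle) (VB : Alg) (pB : Polynomial ℕ) (VC : Alg) (pC : Polynomial ℕ)
    (S : Oracle) : Prop :=
  ∀ q : List Bool, (Mem VB pB A q → S q = true) ∧ (Mem VC pC A q → S q = false)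

theorem exists_list (t : ℕ) (S : Oracle) : ∃ S₀ : List (List Bool),
    ∀ q : List Bool, q.length ≤ t → ofL S₀ q = S q := by
  classical
  have hf : {q : List Bool | q.length ≤ t ∧ S q = true}.Finite :=
    (finite_length_le t).subset fun q hq => hq.1
  refine ⟨hf.toFinset.toList, fun q hq => ?_⟩
  unfold ofL
  rw [Bool.eq_iff_iff, decide_eq_true_iff, Finset.mem_toList, Set.Finite.mem_toFinset]
  exact ⟨fun h => h.2, fun h => ⟨hq, h⟩⟩

theorem step (hd : ∀ q : List Bool, ¬ (Mem VB pB A q ∧ Mem VC pC A q))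
    (hA : ∀ (M : Alg) (ρ : Polynomial ℕ) (t₀ : ℕ) (S₀ : List (List Bool)),
      ∃ n, A ∉ GG VB pB VC pC M ρ t₀ S₀ n) (M : Alg) (ρ : Polynomial ℕ) (t : ℕ) {S : Oracle}
    (hS : Sep A VB pB VC pC S) : ∃ (t' : ℕ) (S' : Oracle), t < t' ∧ Sep A VB pB VC pC S' ∧
      (∀ q : List Bool, q.length ≤ t → S' q = S q) ∧
      ∃ x : List Bool, ∀ S'' : Oracle, (∀ q : List Bool, q.length ≤ t' → S'' q = S' q) →
        ¬ Right M (ρ.eval x.length) A S'' x := by
  classical
  obtain ⟨S₀, hS₀⟩ := exists_list t S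
  obtain ⟨n, hn⟩ := hA M ρ t S₀
  unfold GG Good at hn
  rw [Set.mem_ofPred_eq, not_and, not_and] at hn
  have h1 := hn (fun q _ => hd q) (fun q hq => by
    rw [hS₀ q hq]
    exact hS q)
  push Not at h1
  obtain ⟨S₁, h2, h3, x, hx, h4⟩ := h1
  have hbt : t ≤ bb M ρ t n := by
    unfold bb
    omega
  refine ⟨max (t + 1) (bb M ρ t n),
    fun q => if q.length ≤ bb M ρ t n then S₁ q else decide (Mem VB pB A q),
    lt_of_lt_of_le (Nat.lt_succ_self t) (le_max_left _ _), ?_, ?_, x, ?_⟩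
  · intro q
    by_cases hq : q.length ≤ bb M ρ t n
    · simp only [if_pos hq]
      exact h3 q hq
    · simp only [if_neg hq]
      exact ⟨fun h => decide_eq_true h, fun h => decide_eq_false fun h' => hd q ⟨h', h⟩⟩
  · intro q hq
    simp only [if_pos (hq.trans hbt)]
    rw [h2 q hq, hS₀ q hq]
  · intro S'' hS'' h5
    apply h4
    have h6 : acc M (join A S'') x (ρ.eval n) = acc M (join A S₁) x (ρ.eval n) := by
      refine acc_congr (b := bb M ρ t n) ?_ hx (fun _ _ => rfl) ?_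
      · unfold bb
        omega
      · intro q hq
        rw [hS'' q (hq.trans (le_max_right _ _))]
        simp only [if_pos hq]
    rw [hx] at h5
    unfold Right at h5 ⊢
    rw [← h6]
    exact h5

/-- the separator -/
theorem exists_sep (hd : ∀ q : List Bool, ¬ (Mem VB pB A q ∧ Mem VC pC A q))
    (hA : ∀ (M : Alg) (ρ : Polynomial ℕ) (t₀ : ℕ) (S₀ : List (List Bool)),
      ∃ n, A ∉ GG VB pB VC pC M ρ t₀ S₀ n) : ∃ S : Oracle, Sep A VB pB VC pC S ∧
      ∀ (M : Alg) (ρ : Polynomial ℕ), ∃ x : List Bool, ¬ Right M (ρ.eval x.length) A S x := by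
  classical
  have : Nonempty (Alg × Polynomial ℕ) := ⟨(VB, pB)⟩
  obtain ⟨e, he⟩ := exists_surjective_nat (Alg × Polynomial ℕ)
  have hstep : ∀ (k : ℕ) (s : {s : ℕ × Oracle // Sep A VB pB VC pC s.2}),
      ∃ s' : {s : ℕ × Oracle // Sep A VB pB VC pC s.2}, s.1.1 < s'.1.1 ∧
        (∀ q : List Bool, q.length ≤ s.1.1 → s'.1.2 q = s.1.2 q) ∧
        ∃ x : List Bool, ∀ S'' : Oracle,
          (∀ q : List Bool, q.length ≤ s'.1.1 → S'' q = s'.1.2 q) →
            ¬ Right (e k).1 ((e k).2.eval x.length) A S'' x := by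
    rintro k ⟨⟨t, S⟩, hS⟩
    obtain ⟨t', S', h1, h2, h3, h4⟩ := step hd hA (e k).1 (e k).2 t hS
    exact ⟨⟨(t', S'), h2⟩, h1, h3, h4⟩
  choose nx hnx using hstep
  have hinit : Sep A VB pB VC pC (fun q => decide (Mem VB pB A q)) := fun q =>
    ⟨fun h => decide_eq_true h, fun h => decide_eq_false fun h' => hd q ⟨h', h⟩⟩
  obtain ⟨st, hst0, hst⟩ : ∃ st : ℕ → {s : ℕ × Oracle // Sep A VB pB VC pC s.2},
      st 0 = ⟨(0, _), hinit⟩ ∧ ∀ k, st (k + 1) = nx k (st k) :=
    ⟨fun k => Nat.rec ⟨(0, _), hinit⟩ (fun k s => nx k s) k, rfl, fun k => rfl⟩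
  have hlt : ∀ k, (st k).1.1 < (st (k + 1)).1.1 := fun k => by
    rw [hst]
    exact (hnx k (st k)).1
  have hge : ∀ k, k ≤ (st k).1.1 := by
    intro k
    induction k with
    | zero => exact Nat.zero_le _
    | succ k ih =>
      have := hlt k
      omega
  have hmono : ∀ k j, (st k).1.1 ≤ (st (k + j)).1.1 := by
    intro k j
    induction j with
    | zero => exact le_rfl
    | succ j ih =>
      have := hlt (k + j)
      rw [← Nat.add_assoc]
      omega
  have hag : ∀ (k j : ℕ) (q : List Bool), q.length ≤ (st k).1.1 →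
      (st (k + j)).1.2 q = (st k).1.2 q := by
    intro k j q hq
    induction j with
    | zero => rfl
    | succ j ih =>
      rw [← Nat.add_assoc, hst, (hnx (k + j) (st (k + j))).2.1 q (hq.trans (hmono k j)), ih]
  obtain ⟨S, hS⟩ : ∃ S : Oracle, ∀ q, S q = (st q.length).1.2 q := ⟨_, fun _ => rfl⟩
  have hSk : ∀ (k : ℕ) (q : List Bool), q.length ≤ (st k).1.1 → S q = (st k).1.2 q := by
    intro k q hq
    rw [hS]
    rcases Nat.le_total k q.length with h | h
    · obtain ⟨j, hj⟩ := Nat.exists_eq_add_of_le h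
      rw [hj]
      exact hag k j q hq
    · obtain ⟨j, hj⟩ := Nat.exists_eq_add_of_le h
      have h1 := hag q.length j q (hge _)
      rw [← hj] at h1
      exact h1.symm
  refine ⟨S, fun q => ?_, fun M ρ => ?_⟩
  · rw [hS]
    exact (st q.length).2 q
  · obtain ⟨k, hk⟩ := he (M, ρ)
    obtain ⟨x, hx⟩ := (hnx k (st k)).2.2
    refine ⟨x, ?_⟩
    have h1 := hx S (fun q hq => by
      rw [← hst k] at hq ⊢
      exact hSk (k + 1) q hq)
    rw [hk] at h1
    exact h1

end

theorem isNP_LL (A : Oracle) : IsNP A (LL A) := by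
  refine isNP_of_tt A _
    (Q := fun p => asks p.1.length 0 (p.1 ++ p.2))
    (T := fun p => decide (p.1.2.length = p.1.1.length) && p.2.all id) ?_ ?_ Polynomial.X
    fun x => ?_
  · exact p_asks (UPoly.length (Poly.fst Poly.id)) (UPoly.const 0)
      (Poly.append (Poly.fst Poly.id) (Poly.snd Poly.id))
  · exact Poly.and (Poly.decide_eq (Poly.length (Poly.snd (Poly.fst Poly.id)))
      (Poly.length (Poly.fst (Poly.fst Poly.id)))) (p_all_id (Poly.snd Poly.id))
  · unfold LL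
    simp only [Set.mem_ofPred_eq, Bool.and_eq_true, decide_eq_true_eq, asks_all,
      Polynomial.eval_X]
    constructor
    · rintro ⟨w, hw, hh⟩
      exact ⟨w, hw.le, hw, hh⟩
    · rintro ⟨w, -, hw, hh⟩
      exact ⟨w, hw, hh⟩

end Pool.Agent.H822R2.ESY
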